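import Pool.Agent.Lib_MP_7e32a6_co.Basic

namespace TriGrid

/-- the hyperplanes parallel to the facets -/
def axisH (d n : ℕ) (p : Fin (d + 1) × (Σ _ : ℕ, ℕ)) : Set (Fin d → ℝ) :=
  Fin.cases {x | ∑ j, (1 : ℝ) * x j = (n : ℝ) - 1 - p.2.2}
    (fun i => {x | ∑ j, (Pi.single i (1 : ℝ) : Fin d → ℝ) j * x j = p.2.2}) p.1

theorem axisH_isHyperplane (d n : ℕ) (hd : 1 ≤ d) (p : Fin (d + 1) × (Σ _ : ℕ, ℕ)) :
    IsHyperplane (axisH d n p) := by
  obtain ⟨i, q⟩ := p
  refine Fin.cases ?_ (fun i => ?_) i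
  · refine ⟨fun _ => 1, (n : ℝ) - 1 - q.2, ?_, rfl⟩
    intro h
    have := congrFun h ⟨0, hd⟩
    simp at this
  · refine ⟨Pi.single i 1, q.2, ?_, rfl⟩
    intro h
    have := congrFun h i
    simp at this

theorem axis_count (m s z : ℕ) (hs : 1 ≤ s) :
    m ≤ ((Finset.Icc 1 m).filter fun u => z < s * u).card + z / s := by
  have h : Finset.Icc (z / s + 1) m ⊆ (Finset.Icc 1 m).filter fun u => z < s * u := by
    intro u hu
    rw [Finset.mem_Icc] at hu
    rw [Finset.mem_filter, Finset.mem_Icc]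
    have h1 : z / s < u := hu.1
    refine ⟨⟨(Nat.zero_le _).trans_lt h1, hu.2⟩, ?_⟩
    rw [Nat.div_lt_iff_lt_mul (by omega)] at h1
    rwa [mul_comm]
  have h2 := Finset.card_le_card h
  rw [Nat.card_Icc] at h2
  omega

theorem sum_div_le {ι : Type*} (S : Finset ι) (z : ι → ℕ) (s : ℕ) :
    ∑ i ∈ S, z i / s ≤ (∑ i ∈ S, z i) / s := by
  classical
  induction S using Finset.induction_on with
  | empty => simp
  | insert a S ha ih =>
    rw [Finset.sum_insert ha, Finset.sum_insert ha]
    exact (Nat.add_le_add_left ih _).trans Nat.div_add_div_le_add_div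

theorem axis_card (m s : ℕ) :
    2 * ((Finset.Icc 1 m).sigma fun u => Finset.range (s * u)).card = s * (m * (m + 1)) := by
  rw [Finset.card_sigma]
  simp only [Finset.card_range]
  induction m with
  | zero => simp
  | succ m ih =>
    rw [Finset.sum_Icc_succ_top (by omega), mul_add, ih]
    ring

theorem axis_cover (d k m s : ℕ) (hd : 1 ≤ d) (hk : 1 ≤ k) (hm : k ≤ (d + 1) * m) (hs : 1 ≤ s) :
    ∃ N : ℕ, 2 * N = (d + 1) * s * (m * (m + 1)) ∧
      HasCover (((d + 1) * m + 1 - k) * s) d k N := by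
  classical
  set n := ((d + 1) * m + 1 - k) * s with hn
  set J : Finset (Fin (d + 1) × (Σ _ : ℕ, ℕ)) :=
    Finset.univ ×ˢ ((Finset.Icc 1 m).sigma fun u => Finset.range (s * u)) with hJ
  refine ⟨J.card, ?_, ?_⟩
  · rw [hJ, Finset.card_product, Finset.card_univ, Fintype.card_fin, mul_left_comm, axis_card]
    ring
  · refine hasCover_of_finset J (axisH d n) (fun j _ => axisH_isHyperplane d n hd j) ?_
    rintro x ⟨y, hxy, hy⟩
    -- barycentric coordinates
    set z : Fin (d + 1) → ℕ := Fin.cons (n - 1 - ∑ i, y i) y with hz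
    have hzsum : ∑ i, z i + 1 = n := by
      rw [Fin.sum_univ_succ]
      simp only [hz, Fin.cons_zero, Fin.cons_succ]
      omega
    have hmem : ∀ (i : Fin (d + 1)) (u : ℕ), x ∈ axisH d n (i, ⟨u, z i⟩) := by
      intro i u
      refine Fin.cases ?_ (fun i => ?_) i
      · show ∑ j, (1 : ℝ) * x j = (n : ℝ) - 1 - ((z 0 : ℕ) : ℝ)
        simp only [one_mul, hxy]
        have h0 : z 0 = n - 1 - ∑ i, y i := by simp [hz]
        rw [h0, Nat.cast_sub (by omega), Nat.cast_sub (by omega)]
        push_cast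
        ring
      · show ∑ j, (Pi.single i (1 : ℝ) : Fin d → ℝ) j * x j = ((z i.succ : ℕ) : ℝ)
        have h0 : z i.succ = y i := by simp [hz]
        rw [h0, Finset.sum_eq_single i]
        · simp [hxy]
        · intro j _ hj
          simp [Pi.single_eq_of_ne hj]
        · intro h; exact absurd (Finset.mem_univ i) h
    -- the set of members through `x` contains these
    set K : Finset (Fin (d + 1) × (Σ _ : ℕ, ℕ)) :=
      (Finset.univ.sigma fun i : Fin (d + 1) => (Finset.Icc 1 m).filter fun u => z i < s * u).image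
        (fun p : (Σ _ : Fin (d + 1), ℕ) => (p.1, (⟨p.2, z p.1⟩ : Σ _ : ℕ, ℕ))) with hK
    have hKcard : K.card = ∑ i, ((Finset.Icc 1 m).filter fun u => z i < s * u).card := by
      rw [hK, Finset.card_image_of_injective, Finset.card_sigma]
      rintro ⟨i, u⟩ ⟨i', u'⟩ h
      simp only [Prod.mk.injEq, Sigma.mk.injEq] at h
      obtain ⟨h1, h2, -⟩ := h
      subst h1; subst h2; rfl
    have hsub : (K : Set _) ⊆ {j | j ∈ J ∧ x ∈ axisH d n j} := by
      intro j hj
      rw [Finset.mem_coe, hK, Finset.mem_image] at hj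
      obtain ⟨⟨i, u⟩, hiu, rfl⟩ := hj
      rw [Finset.mem_sigma, Finset.mem_filter] at hiu
      refine ⟨?_, hmem i u⟩
      rw [hJ, Finset.mem_product, Finset.mem_sigma]
      exact ⟨Finset.mem_univ _, hiu.2.1, Finset.mem_range.2 hiu.2.2⟩
    have hfin : {j | j ∈ J ∧ x ∈ axisH d n j}.Finite :=
      J.finite_toSet.subset fun j hj => hj.1
    have h1 : K.card ≤ {j | j ∈ J ∧ x ∈ axisH d n j}.ncard := by
      rw [← Set.ncard_coe_finset]
      exact Set.ncard_le_ncard hsub hfin
    refine le_trans ?_ h1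
    rw [hKcard]
    have h2 : (d + 1) * m ≤
        ∑ i, ((Finset.Icc 1 m).filter fun u => z i < s * u).card + ∑ i, z i / s := by
      rw [← Finset.sum_add_distrib]
      calc (d + 1) * m = ∑ _i : Fin (d + 1), m := by simp
        _ ≤ _ := Finset.sum_le_sum fun i _ => axis_count m s (z i) hs
    have h3 : ∑ i, z i / s ≤ (∑ i, z i) / s := sum_div_le _ _ _
    have h4 : (∑ i, z i) / s < (d + 1) * m + 1 - k := by
      rw [Nat.div_lt_iff_lt_mul (by omega)]
      omega
    omega

end TriGrid
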