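import Pool.Agent.Lib_MP_7e32a6_co.Defs

namespace TriGrid

/-- every finset-indexed family gives a cover -/
theorem hasCover_of_finset {ι : Type*} (J : Finset ι) {n d k : ℕ}
    (H : ι → Set (Fin d → ℝ)) (hH : ∀ j ∈ J, IsHyperplane (H j))
    (hc : ∀ x ∈ grid d n, k ≤ {j | j ∈ J ∧ x ∈ H j}.ncard) : HasCover n d k J.card := by
  classical
  let e : Fin J.card ≃ J := J.equivFin.symm
  refine ⟨fun i => H (e i), fun i => hH _ (e i).2, fun x hx => ?_⟩
  refine (hc x hx).trans ?_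
  have himg : {j | j ∈ J ∧ x ∈ H j} = (fun i : Fin J.card => ((e i : J) : ι)) ''
      {i : Fin J.card | x ∈ H (e i)} := by
    ext j
    constructor
    · rintro ⟨hj, hx⟩
      refine ⟨e.symm ⟨j, hj⟩, ?_, ?_⟩
      · change x ∈ H (e (e.symm ⟨j, hj⟩))
        rw [Equiv.apply_symm_apply]; exact hx
      · simp
    · rintro ⟨i, hi, rfl⟩
      exact ⟨(e i).2, hi⟩
  rw [himg]
  exact Set.ncard_image_le (Set.toFinite _)

theorem hasCover_trivial (n d k : ℕ) (hd : 1 ≤ d) : HasCover n d k (k * n) := by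
  classical
  have hcard : ((Finset.univ : Finset (Fin k × Fin n))).card = k * n := by
    simp
  rw [← hcard]
  let i0 : Fin d := ⟨0, hd⟩
  refine hasCover_of_finset (Finset.univ : Finset (Fin k × Fin n))
    (fun j => {x | ∑ i, (Pi.single i0 (1 : ℝ) : Fin d → ℝ) i * x i = ((j.2 : ℕ) : ℝ)}) ?_ ?_
  · intro j _
    refine ⟨Pi.single i0 1, ((j.2 : ℕ) : ℝ), ?_, rfl⟩
    intro h
    have := congrFun h i0
    simp at this
  · rintro x ⟨y, hy, hsum⟩
    have hlt : y i0 < n := by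
      have : y i0 ≤ ∑ i, y i := Finset.single_le_sum (fun i _ => Nat.zero_le _) (Finset.mem_univ i0)
      omega
    have hsub : (fun a : Fin k => ((a, ⟨y i0, hlt⟩) : Fin k × Fin n)) '' Set.univ ⊆
        {j | j ∈ (Finset.univ : Finset (Fin k × Fin n)) ∧
          x ∈ {x | ∑ i, (Pi.single i0 (1 : ℝ) : Fin d → ℝ) i * x i = ((j.2 : ℕ) : ℝ)}} := by
      rintro _ ⟨a, _, rfl⟩
      refine ⟨Finset.mem_univ _, ?_⟩
      change ∑ i, (Pi.single i0 (1 : ℝ) : Fin d → ℝ) i * x i = ((y i0 : ℕ) : ℝ)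
      rw [Finset.sum_eq_single i0]
      · simp [hy]
      · intro b _ hb
        simp [Pi.single_eq_of_ne hb]
      · intro h; exact absurd (Finset.mem_univ _) h
    have h2 := Set.ncard_le_ncard hsub (Set.toFinite _)
    rw [Set.ncard_image_of_injective _ (fun a b h => (Prod.mk.inj h).1)] at h2
    simpa using h2

theorem hasCover_f (n d k : ℕ) (hd : 1 ≤ d) : HasCover n d k (f n d k) :=
  Nat.sInf_mem (s := {N | HasCover n d k N}) ⟨_, hasCover_trivial n d k hd⟩

theorem f_le {n d k N : ℕ} (h : HasCover n d k N) : f n d k ≤ N :=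
  Nat.sInf_le h

theorem f_mono {n m d k : ℕ} (hd : 1 ≤ d) (h : n ≤ m) : f n d k ≤ f m d k := by
  obtain ⟨H, hH, hc⟩ := hasCover_f m d k hd
  refine f_le ⟨H, hH, fun x hx => hc x ?_⟩
  obtain ⟨y, hy, hs⟩ := hx
  exact ⟨y, hy, hs.trans h⟩

end TriGrid
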