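import Pool.Agent.Lib_MP_7e32a6_co.PlaneDefs

namespace TriGrid

theorem charge_inc_nonneg (G : ℕ → ℚ) (hG0 : ∀ p, 0 ≤ G p) (hGm : Monotone G) (l : ℕ) :
    0 ≤ inc G l := by
  unfold inc
  split_ifs with h
  · simpa using hG0 l
  · have := hGm (Nat.sub_le l 1)
    linarith

theorem charge_sum_inc (G : ℕ → ℚ) (p : ℕ) :
    ∑ l ∈ Finset.range (p + 1), inc G l = G p := by
  induction p with
  | zero => simp [inc]
  | succ p ih => rw [Finset.sum_range_succ, ih]; simp [inc]

theorem charge_cc_mem (A : ℕ → ℕ) (n l : ℕ) : A (cc A n l) ≤ l ∨ n ≤ cc A n l := by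
  have : sInf {c | A c ≤ l ∨ n ≤ c} ∈ {c | A c ≤ l ∨ n ≤ c} :=
    Nat.sInf_mem ⟨n, Or.inr le_rfl⟩
  exact this

theorem charge_cc_le {A : ℕ → ℕ} {n l c : ℕ} (h : A c ≤ l ∨ n ≤ c) : cc A n l ≤ c :=
  Nat.sInf_le h

theorem charge_lt_cc {A : ℕ → ℕ} {n l c : ℕ} (h : c < cc A n l) : l < A c := by
  by_contra hc
  exact absurd (charge_cc_le (n := n) (Or.inl (not_lt.1 hc))) (not_le.2 h)

theorem charge_cc_anti {A : ℕ → ℕ} {n l l' : ℕ} (h : l ≤ l') : cc A n l' ≤ cc A n l := by
  rcases charge_cc_mem A n l with h1 | h1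
  · exact charge_cc_le (Or.inl (h1.trans h))
  · exact charge_cc_le (Or.inr h1)

theorem charge_mem_tri {n : ℕ} {x : Fin 3 → ℕ} (hx : x ∈ tri n) (i : Fin 3) : x i < n := by
  have := (Finset.mem_filter.1 hx).1
  rw [Fintype.mem_piFinset] at this
  exact Finset.mem_range.1 (this i)

/-- the weight of the label `(i,l)` -/
noncomputable def chw (A : Fin 3 → ℕ → ℕ) (n k : ℕ) (L : Finset (Fin 3 → ℕ)) (i : Fin 3) (l : ℕ) :
    ℚ :=
  ∑ x ∈ L.filter (fun x => x i = cc (A i) n l), (need A k i l x : ℚ) / (defi A k x : ℚ)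

theorem charge_need_le (A : Fin 3 → ℕ → ℕ) (k l : ℕ) (x : Fin 3 → ℕ) (i : Fin 3)
    (h : A i (x i) ≤ l) : need A k i l x ≤ defi A k x := by
  unfold need defi
  have := Finset.add_sum_erase Finset.univ (fun j => A j (x j)) (Finset.mem_univ i)
  omega

theorem charge_need_eq (A : Fin 3 → ℕ → ℕ) (k l : ℕ) (x : Fin 3 → ℕ) (i : Fin 3)
    (h : A i (x i) ≤ l) : need A k i l x = defi A k x + A i (x i) - l := by
  unfold need defi
  have := Finset.add_sum_erase Finset.univ (fun j => A j (x j)) (Finset.mem_univ i)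
  omega

theorem chw_nonneg (A : Fin 3 → ℕ → ℕ) (n k : ℕ) (L : Finset (Fin 3 → ℕ)) (i : Fin 3) (l : ℕ) :
    0 ≤ chw A n k L i l := Finset.sum_nonneg fun _ _ => by positivity

theorem charge_A_le {A : Fin 3 → ℕ → ℕ} {n l : ℕ} {x : Fin 3 → ℕ} (hx : x ∈ tri n) {i : Fin 3}
    (h : x i = cc (A i) n l) : A i (x i) ≤ l := by
  rcases charge_cc_mem (A i) n l with h1 | h1
  · rw [h]; exact h1
  · have := charge_mem_tri hx i
    omega

theorem chw_eq (A : Fin 3 → ℕ → ℕ) (n k : ℕ) (L : Finset (Fin 3 → ℕ))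
    (hinj : ∀ x ∈ L, ∀ y ∈ L, ∀ i, x i = y i → x = y) (i : Fin 3) (l : ℕ) (x : Fin 3 → ℕ)
    (hx : x ∈ L) (h : x i = cc (A i) n l) :
    chw A n k L i l = (need A k i l x : ℚ) / (defi A k x : ℚ) := by
  unfold chw
  rw [show L.filter (fun x => x i = cc (A i) n l) = {x} from ?_, Finset.sum_singleton]
  ext y
  simp only [Finset.mem_filter, Finset.mem_singleton]
  constructor
  · rintro ⟨hy, hyi⟩
    exact hinj y hy x hx i (hyi.trans h.symm)
  · rintro rfl
    exact ⟨hx, h⟩

theorem chw_le_one (A : Fin 3 → ℕ → ℕ) (n k : ℕ) (L : Finset (Fin 3 → ℕ)) (hL : L ⊆ tri n)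
    (hinj : ∀ x ∈ L, ∀ y ∈ L, ∀ i, x i = y i → x = y) (i : Fin 3) (l : ℕ) :
    chw A n k L i l ≤ 1 := by
  by_cases h : ∃ x ∈ L, x i = cc (A i) n l
  · obtain ⟨x, hx, hxi⟩ := h
    rw [chw_eq A n k L hinj i l x hx hxi]
    have h1 := charge_need_le A k l x i (charge_A_le (hL hx) hxi)
    exact div_le_one_of_le₀ (by exact_mod_cast h1) (by positivity)
  · push Not at h
    unfold chw
    rw [Finset.sum_eq_zero]
    · norm_num
    · intro x hx
      exact absurd (Finset.mem_filter.1 hx).2 (h x (Finset.mem_filter.1 hx).1)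

theorem chw_pos (A : Fin 3 → ℕ → ℕ) (n k : ℕ) (L : Finset (Fin 3 → ℕ)) 
    (i : Fin 3) (l : ℕ)
    (h : 0 < chw A n k L i l) : ∃ x ∈ L, x i = cc (A i) n l ∧ 0 < need A k i l x := by
  by_contra hc
  push Not at hc
  have : chw A n k L i l = 0 := by
    unfold chw
    refine Finset.sum_eq_zero fun x hx => ?_
    have := hc x (Finset.mem_filter.1 hx).1 (Finset.mem_filter.1 hx).2
    have : need A k i l x = 0 := by omega
    rw [this]; simp
  linarith

/-- total weight of the direction `i` -/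
noncomputable def chW (A : Fin 3 → ℕ → ℕ) (n k : ℕ) (G : ℕ → ℚ) (L : Finset (Fin 3 → ℕ))
    (i : Fin 3) : ℚ := ∑ l ∈ Finset.range k, inc G l * chw A n k L i l

/-- if all the effective labels are at most `p`, the weight is at most `G p` -/
theorem chW_le (A : Fin 3 → ℕ → ℕ) (n k : ℕ) (G : ℕ → ℚ)
    (hG0 : ∀ p, 0 ≤ G p) (hGm : Monotone G) (L : Finset (Fin 3 → ℕ)) (hL : L ⊆ tri n)
    (hinj : ∀ x ∈ L, ∀ y ∈ L, ∀ i, x i = y i → x = y) (i : Fin 3) (p : ℕ)
    (hp : ∀ l < k, 0 < chw A n k L i l → l ≤ p) : chW A n k G L i ≤ G p := by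
  unfold chW
  calc ∑ l ∈ Finset.range k, inc G l * chw A n k L i l
      ≤ ∑ l ∈ Finset.range k, if l ≤ p then inc G l else 0 := by
        refine Finset.sum_le_sum fun l hl => ?_
        split_ifs with h
        · exact mul_le_of_le_one_right (charge_inc_nonneg G hG0 hGm l)
            (chw_le_one A n k L hL hinj i l)
        · have h0 : chw A n k L i l = 0 := by
            refine le_antisymm ?_ (chw_nonneg A n k L i l)
            by_contra hc
            exact h (hp l (Finset.mem_range.1 hl) (not_le.1 hc))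
          rw [h0, mul_zero]
    _ = ∑ l ∈ (Finset.range k).filter (fun l => l ≤ p), inc G l := (Finset.sum_filter _ _).symm
    _ ≤ ∑ l ∈ Finset.range (p + 1), inc G l := by
        refine Finset.sum_le_sum_of_subset_of_nonneg ?_ fun l _ _ => charge_inc_nonneg G hG0 hGm l
        intro l hl
        have := (Finset.mem_filter.1 hl).2
        exact Finset.mem_range.2 (by omega)
    _ = G p := charge_sum_inc G p

theorem chW_le_of_point (A : Fin 3 → ℕ → ℕ) (n k : ℕ) (G : ℕ → ℚ)
    (hG0 : ∀ p, 0 ≤ G p) (hGm : Monotone G) (L : Finset (Fin 3 → ℕ)) (hL : L ⊆ tri n)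
    (hinj : ∀ x ∈ L, ∀ y ∈ L, ∀ i, x i = y i → x = y) (i : Fin 3) (p : ℕ)
    (hp : ∀ l < k, 0 < chw A n k L i l → l ≤ p) (x : Fin 3 → ℕ) (hx : x ∈ L)
    (hxi : x i = cc (A i) n p) (hpos : 0 < defi A k x) :
    defi A k x * chW A n k G L i ≤ ∑ s ∈ Finset.range (defi A k x), G (A i (x i) + s) := by
  set m := defi A k x with hm
  set a := A i (x i) with ha
  have key : ∀ l ∈ Finset.range k, (m : ℚ) * (inc G l * chw A n k L i l) ≤
      ∑ s ∈ Finset.range m, if l ≤ a + s then inc G l else 0 := by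
    intro l hl
    have h1 : (∑ s ∈ Finset.range m, if l ≤ a + s then inc G l else 0) =
        inc G l * ((m - (l - a) : ℕ) : ℚ) := by
      rw [← Finset.sum_filter, Finset.sum_const, nsmul_eq_mul, mul_comm]
      congr 2
      have : (Finset.range m).filter (fun s => l ≤ a + s) = Finset.Ico (l - a) m := by
        ext s; simp only [Finset.mem_filter, Finset.mem_range, Finset.mem_Ico]; omega
      rw [this, Nat.card_Ico]
    rw [h1]
    have h2 : (m : ℚ) * (inc G l * chw A n k L i l) = inc G l * (m * chw A n k L i l) := by ring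
    rw [h2]
    refine mul_le_mul_of_nonneg_left ?_ (charge_inc_nonneg G hG0 hGm l)
    rcases lt_or_ge l a with hla | hla
    · have : m - (l - a) = m := by omega
      rw [this]
      exact mul_le_of_le_one_right (by positivity) (chw_le_one A n k L hL hinj i l)
    · rcases le_or_gt l p with hlp | hlp
      · have h3 : x i = cc (A i) n l := by
          refine le_antisymm ?_ (charge_cc_le (Or.inl hla))
          rw [hxi]; exact charge_cc_anti hlp
        rw [chw_eq A n k L hinj i l x hx h3, charge_need_eq A k l x i hla, ← hm, ← ha]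
        have : (m : ℚ) ≠ 0 := by exact_mod_cast hpos.ne'
        rw [mul_div_cancel₀ _ this]
        have : m + a - l = m - (l - a) := by omega
        rw [this]
      · have h0 : chw A n k L i l = 0 := by
          refine le_antisymm ?_ (chw_nonneg A n k L i l)
          by_contra hc
          exact absurd (hp l (Finset.mem_range.1 hl) (not_le.1 hc)) (not_le.2 hlp)
        rw [h0, mul_zero]
        positivity
  unfold chW
  rw [Finset.mul_sum]
  refine (Finset.sum_le_sum key).trans ?_
  rw [Finset.sum_comm]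
  refine Finset.sum_le_sum fun s _ => ?_
  rw [← Finset.sum_filter, ← charge_sum_inc G (a + s)]
  refine Finset.sum_le_sum_of_subset_of_nonneg ?_ fun l _ _ => charge_inc_nonneg G hG0 hGm l
  intro l hl
  have := (Finset.mem_filter.1 hl).2
  exact Finset.mem_range.2 (by omega)

theorem charge_pair (A : Fin 3 → ℕ → ℕ) (n k : ℕ) (hk : 1 ≤ k) (G : ℕ → ℚ)
    (hG0 : ∀ p, 0 ≤ G p) (hGm : Monotone G)
    (hB : ∀ p < k, G p + G (k - 1 - p) ≤ 1 / 2)
    (L : Finset (Fin 3 → ℕ)) (hL : L ⊆ tri n)
    (hinj : ∀ x ∈ L, ∀ y ∈ L, ∀ i, x i = y i → x = y)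
    (p q : Fin 3) (hpq : p ≠ q) (hmono : ∀ x ∈ L, ∀ y ∈ L, (x p < y p ↔ x q < y q)) :
    chW A n k G L p + chW A n k G L q ≤ 1 / 2 := by
  have hlast : G (k - 1) ≤ 1 / 2 := by
    have := hB 0 (by omega)
    have h0 := hG0 0
    simp only [Nat.sub_zero] at this
    linarith
  have hall : ∀ i, chW A n k G L i ≤ 1 / 2 := fun i =>
    (chW_le A n k G hG0 hGm L hL hinj i (k - 1) (fun l hl _ => by omega)).trans hlast
  have hzero : ∀ i, (¬ ∃ l ∈ Finset.range k, 0 < chw A n k L i l) → chW A n k G L i = 0 := by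
    intro i h
    push Not at h
    unfold chW
    refine Finset.sum_eq_zero fun l hl => ?_
    rw [le_antisymm (h l hl) (chw_nonneg A n k L i l), mul_zero]
  by_cases h1 : ∃ l ∈ Finset.range k, 0 < chw A n k L p l
  swap
  · rw [hzero p h1, zero_add]; exact hall q
  by_cases h2 : ∃ l ∈ Finset.range k, 0 < chw A n k L q l
  swap
  · rw [hzero q h2, add_zero]; exact hall p
  -- the largest effective labels
  have hmax : ∀ i, (∃ l ∈ Finset.range k, 0 < chw A n k L i l) →
      ∃ l < k, 0 < chw A n k L i l ∧ ∀ l' < k, 0 < chw A n k L i l' → l' ≤ l := by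
    intro i h
    obtain ⟨l0, hl0, hl0'⟩ := h
    obtain ⟨l, hl, hmax⟩ := ((Finset.range k).filter (fun l => 0 < chw A n k L i l)).exists_max_image
      id ⟨l0, Finset.mem_filter.2 ⟨hl0, hl0'⟩⟩
    rw [Finset.mem_filter, Finset.mem_range] at hl
    exact ⟨l, hl.1, hl.2, fun l' h1 h2 => hmax l' (Finset.mem_filter.2 ⟨Finset.mem_range.2 h1, h2⟩)⟩
  obtain ⟨l, hl, hlpos, hlmax⟩ := hmax p h1
  obtain ⟨l', hl', hlpos', hlmax'⟩ := hmax q h2
  obtain ⟨x, hx, hxp, hxn⟩ := chw_pos A n k L p l hlpos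
  obtain ⟨y, hy, hyq, hyn⟩ := chw_pos A n k L q l' hlpos'
  have hsum : ∀ (z : Fin 3 → ℕ) (i j : Fin 3), i ≠ j →
      A j (z j) ≤ ∑ t ∈ Finset.univ.erase i, A t (z t) := by
    intro z i j hij
    exact Finset.single_le_sum (f := fun t => A t (z t)) (fun _ _ => Nat.zero_le _)
      (Finset.mem_erase.2 ⟨hij.symm, Finset.mem_univ j⟩)
  by_cases hxy : x = y
  · subst hxy
    have hAp := charge_A_le (hL hx) hxp
    have hAq := charge_A_le (hL hx) hyq
    have hm0 : 0 < defi A k x := lt_of_lt_of_le hxn (charge_need_le A k l x p hAp)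
    have e1 := chW_le_of_point A n k G hG0 hGm L hL hinj p l hlmax x hx hxp hm0
    have e2 := chW_le_of_point A n k G hG0 hGm L hL hinj q l' hlmax' x hx hyq hm0
    rw [← Finset.sum_range_reflect (fun s => G (A q (x q) + s))] at e2
    have e3 : ∑ s ∈ Finset.range (defi A k x), G (A p (x p) + s) +
        ∑ s ∈ Finset.range (defi A k x), G (A q (x q) + (defi A k x - 1 - s)) ≤
        defi A k x * (1 / 2) := by
      rw [← Finset.sum_add_distrib]
      calc _ ≤ ∑ s ∈ Finset.range (defi A k x), (1 / 2 : ℚ) := by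
            refine Finset.sum_le_sum fun s hs => ?_
            rw [Finset.mem_range] at hs
            have hd : defi A k x = k - ∑ i, A i (x i) := rfl
            have hs2 : A p (x p) + A q (x q) ≤ ∑ i, A i (x i) := by
              rw [← Finset.add_sum_erase Finset.univ (fun j => A j (x j)) (Finset.mem_univ p)]
              have := hsum x p q hpq
              simpa using this
            have h5 := hB (A p (x p) + s) (by omega)
            have h6 : G (A q (x q) + (defi A k x - 1 - s)) ≤ G (k - 1 - (A p (x p) + s)) :=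
              hGm (by omega)
            linarith
        _ = _ := by rw [Finset.sum_const, Finset.card_range, nsmul_eq_mul]
    have hm1 : (0 : ℚ) < defi A k x := by exact_mod_cast hm0
    have e4 : (defi A k x : ℚ) * (chW A n k G L p + chW A n k G L q) ≤ defi A k x * (1 / 2) := by
      rw [mul_add]; linarith
    exact le_of_mul_le_mul_left e4 hm1
  · have hll : l + l' + 2 ≤ k := by
      have hne : x p ≠ y p := fun h => hxy (hinj x hx y hy p h)
      rcases lt_or_gt_of_ne hne with h | h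
      · have h3 : x q < cc (A q) n l' := by rw [← hyq]; exact (hmono x hx y hy).1 h
        have h4 := charge_lt_cc h3
        have h5 := hsum x p q hpq
        unfold need at hxn
        omega
      · have h3 : y p < cc (A p) n l := by rw [← hxp]; exact h
        have h4 := charge_lt_cc h3
        have h5 := hsum y q p hpq.symm
        unfold need at hyn
        omega
    have e1 := chW_le A n k G hG0 hGm L hL hinj p l hlmax
    have e2 := chW_le A n k G hG0 hGm L hL hinj q l' hlmax'
    have e3 := hB l hl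
    have e4 : G l' ≤ G (k - 1 - l) := hGm (by omega)
    linarith

/-- Piece CHARGE (Charge.lean) -/
theorem charge_le_one (A : Fin 3 → ℕ → ℕ) (n k : ℕ) (hk : 1 ≤ k) (G : ℕ → ℚ)
    (hG0 : ∀ p, 0 ≤ G p) (hGm : Monotone G)
    (hB : (∀ p < k, G p + G (k - 1 - p) ≤ 1 / 2) ∨ 3 * G (k - 1) ≤ 1)
    (L : Finset (Fin 3 → ℕ)) (hL : L ⊆ tri n)
    (hinj : ∀ x ∈ L, ∀ y ∈ L, ∀ i, x i = y i → x = y)
    (hmono : ∃ p q : Fin 3, p ≠ q ∧ ∀ x ∈ L, ∀ y ∈ L, (x p < y p ↔ x q < y q)) :
    charge A n k G L ≤ 1 := by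
  have hch : charge A n k G L = chW A n k G L 0 + chW A n k G L 1 + chW A n k G L 2 := by
    unfold charge
    rw [Fin.sum_univ_three]
    rfl
  have hall : ∀ i, chW A n k G L i ≤ G (k - 1) := fun i =>
    chW_le A n k G hG0 hGm L hL hinj i (k - 1) (fun l hl _ => by omega)
  rw [hch]
  rcases hB with hB | hB
  · have hlast : G (k - 1) ≤ 1 / 2 := by
      have := hB 0 (by omega)
      have h0 := hG0 0
      simp only [Nat.sub_zero] at this
      linarith
    obtain ⟨p, q, hpq, hm⟩ := hmono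
    have h := charge_pair A n k hk G hG0 hGm hB L hL hinj p q hpq hm
    have h0 := hall 0
    have h1 := hall 1
    have h2 := hall 2
    fin_cases p <;> fin_cases q <;> first | (exact absurd rfl hpq) | (simp at h; linarith)
  · have h0 := hall 0
    have h1 := hall 1
    have h2 := hall 2
    linarith

end TriGrid
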