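import Pool.Agent.Lib_MP_7e32a6_co.PlaneDefs

/-!
# A cover of the plane grid by lines, in barycentric coordinates
-/

namespace TriGrid

namespace Classify

theorem mem_tri_iff (n : ℕ) (x : Fin 3 → ℕ) : x ∈ tri n ↔ x 0 + x 1 + x 2 + 1 = n := by
  unfold tri
  rw [Finset.mem_filter]
  refine ⟨fun h => h.2, fun h => ⟨?_, h⟩⟩
  rw [Fintype.mem_piFinset]
  intro i
  rw [Finset.mem_range]
  fin_cases i <;> simp <;> omega

/-- the line with data `(u, v, w)` contains the point `x` -/
def on (u v w : ℝ) (x : Fin 3 → ℕ) : Prop := u * (x 1 : ℝ) + v * (x 2 : ℝ) = w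

/-- the line with data `(u, v, w)` is the axis line `x_i = c` -/
def ax (n : ℕ) (u v w : ℝ) (i : Fin 3) (c : ℕ) : Prop :=
  (i = 0 ∧ u = v ∧ u * ((n : ℝ) - 1 - c) = w) ∨ (i = 1 ∧ v = 0 ∧ u * c = w) ∨
    (i = 2 ∧ u = 0 ∧ v * c = w)

/-- the line with data `(u, v, w)` is not parallel to an axis line -/
def gen (u v : ℝ) : Prop := u ≠ 0 ∧ v ≠ 0 ∧ u ≠ v

theorem ax_unique {n : ℕ} {u v w : ℝ} (h : u ≠ 0 ∨ v ≠ 0) {i i' : Fin 3} {c c' : ℕ}
    (h1 : ax n u v w i c) (h2 : ax n u v w i' c') : i = i' ∧ c = c' := by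
  rcases h1 with ⟨rfl, a1, a2⟩ | ⟨rfl, a1, a2⟩ | ⟨rfl, a1, a2⟩ <;>
  rcases h2 with ⟨rfl, b1, b2⟩ | ⟨rfl, b1, b2⟩ | ⟨rfl, b1, b2⟩
  · refine ⟨rfl, ?_⟩
    have hu : u ≠ 0 := by
      rcases h with h | h
      · exact h
      · rw [a1]; exact h
    have : u * ((n : ℝ) - 1 - c) = u * ((n : ℝ) - 1 - c') := by rw [a2, b2]
    have := mul_left_cancel₀ hu this
    have : (c : ℝ) = c' := by linarith
    exact_mod_cast this
  · exfalso
    rw [b1] at a1
    rw [a1] at h
    rw [b1] at h
    simp at h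
  · exfalso
    rw [b1] at a1
    rw [b1, ← a1] at h
    simp at h
  · exfalso
    rw [a1] at b1
    rw [b1, a1] at h
    simp at h
  · refine ⟨rfl, ?_⟩
    have hu : u ≠ 0 := by
      rcases h with h | h
      · exact h
      · exact absurd a1 h
    have : u * (c : ℝ) = u * c' := by rw [a2, b2]
    have := mul_left_cancel₀ hu this
    exact_mod_cast this
  · exfalso
    rw [a1, b1] at h
    simp at h
  · exfalso
    rw [a1] at b1
    rw [a1, ← b1] at h
    simp at h
  · exfalso
    rw [a1, b1] at h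
    simp at h
  · refine ⟨rfl, ?_⟩
    have hv : v ≠ 0 := by
      rcases h with h | h
      · exact absurd a1 h
      · exact h
    have : v * (c : ℝ) = v * c' := by rw [a2, b2]
    have := mul_left_cancel₀ hv this
    exact_mod_cast this

theorem not_ax_of_gen {n : ℕ} {u v w : ℝ} (h : gen u v) {i : Fin 3} {c : ℕ} :
    ¬ ax n u v w i c := by
  rintro (⟨-, a1, -⟩ | ⟨-, a1, -⟩ | ⟨-, a1, -⟩)
  · exact h.2.2 a1
  · exact h.2.1 a1
  · exact h.1 a1

theorem ax_of_on {n : ℕ} {u v w : ℝ} {x : Fin 3 → ℕ} (hx : x ∈ tri n)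
    (ho : on u v w x) : (∃ i, ax n u v w i (x i)) ∨ gen u v := by
  by_cases h0 : u = 0
  · refine Or.inl ⟨2, Or.inr (Or.inr ⟨rfl, h0, ?_⟩)⟩
    unfold on at ho
    rw [h0] at ho
    linarith
  by_cases h1 : v = 0
  · refine Or.inl ⟨1, Or.inr (Or.inl ⟨rfl, h1, ?_⟩)⟩
    unfold on at ho
    rw [h1] at ho
    linarith
  by_cases h2 : u = v
  · refine Or.inl ⟨0, Or.inl ⟨rfl, h2, ?_⟩⟩
    rw [mem_tri_iff] at hx
    have hx' : (n : ℝ) = x 0 + x 1 + x 2 + 1 := by rw [← hx]; push_cast; ring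
    unfold on at ho
    rw [← h2] at ho
    rw [hx', ← ho]
    ring
  · exact Or.inr ⟨h0, h1, h2⟩

theorem inj_of_gen {n : ℕ} {u v w : ℝ} (h : gen u v) {x y : Fin 3 → ℕ} (hx : x ∈ tri n)
    (hy : y ∈ tri n) (ox : on u v w x) (oy : on u v w y) (i : Fin 3) (hi : x i = y i) :
    x = y := by
  rw [mem_tri_iff] at hx hy
  unfold on at ox oy
  obtain ⟨hu, hv, huv⟩ := h
  have e : x 1 = y 1 ∨ x 2 = y 2 ∨ x 0 = y 0 := by
    fin_cases i
    · exact Or.inr (Or.inr hi)
    · exact Or.inl hi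
    · exact Or.inr (Or.inl hi)
  have h12 : x 1 = y 1 ∧ x 2 = y 2 := by
    rcases e with e | e | e
    · refine ⟨e, ?_⟩
      have : v * (x 2 : ℝ) = v * y 2 := by rw [e] at ox; linarith
      exact_mod_cast mul_left_cancel₀ hv this
    · refine ⟨?_, e⟩
      have : u * (x 1 : ℝ) = u * y 1 := by rw [e] at ox; linarith
      exact_mod_cast mul_left_cancel₀ hu this
    · have hs : (x 1 : ℝ) + x 2 = y 1 + y 2 := by
        have : x 1 + x 2 = y 1 + y 2 := by omega
        exact_mod_cast this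
      have h2 : (u - v) * (x 1 : ℝ) = (u - v) * y 1 := by
        have e2 : (x 2 : ℝ) = y 1 + y 2 - x 1 := by linarith
        rw [e2] at ox
        linear_combination ox - oy
      have h3 := mul_left_cancel₀ (sub_ne_zero.2 huv) h2
      have h4 : x 1 = y 1 := by exact_mod_cast h3
      exact ⟨h4, by omega⟩
  funext j
  fin_cases j
  · show x 0 = y 0
    omega
  · exact h12.1
  · exact h12.2

theorem pos_iff {cp cq dp dq : ℝ} (h : cq * dp = cp * dq) (hpos : 0 < cp * cq) :
    0 < dp ↔ 0 < dq := by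
  have hq : cq ≠ 0 := by rintro rfl; simp at hpos
  have hq2 : 0 < cq * cq := mul_self_pos.2 hq
  have e : (cq * cq) * dp = (cp * cq) * dq := by linear_combination cq * h
  constructor
  · intro hd
    have : 0 < (cp * cq) * dq := by rw [← e]; exact mul_pos hq2 hd
    exact (pos_iff_pos_of_mul_pos this).1 hpos
  · intro hd
    have : 0 < (cq * cq) * dp := by rw [e]; exact mul_pos hpos hd
    exact (pos_iff_pos_of_mul_pos this).1 hq2

theorem mono_of_gen {n : ℕ} {u v w : ℝ} (h : gen u v) :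
    ∃ p q : Fin 3, p ≠ q ∧ ∀ x ∈ tri n, ∀ y ∈ tri n, on u v w x → on u v w y →
      (x p < y p ↔ x q < y q) := by
  obtain ⟨hu, hv, huv⟩ := h
  have huv' : u - v ≠ 0 := sub_ne_zero.2 huv
  have key : ∀ x ∈ tri n, ∀ y ∈ tri n, on u v w x → on u v w y →
      u * ((y 1 : ℝ) - x 1) + v * ((y 2 : ℝ) - x 2) = 0 ∧
      (y 0 : ℝ) - x 0 = -((y 1 : ℝ) - x 1) - ((y 2 : ℝ) - x 2) := by
    intro x hx y hy ox oy
    rw [mem_tri_iff] at hx hy
    unfold on at ox oy
    refine ⟨by linear_combination oy - ox, ?_⟩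
    have : x 0 + x 1 + x 2 = y 0 + y 1 + y 2 := by omega
    have : (x 0 : ℝ) + x 1 + x 2 = y 0 + y 1 + y 2 := by exact_mod_cast this
    linarith
  have lt_iff : ∀ a b : ℕ, a < b ↔ (0 : ℝ) < (b : ℝ) - a := by
    intro a b
    rw [sub_pos, Nat.cast_lt]
  by_cases c1 : 0 < (u - v) * v
  · refine ⟨0, 1, by decide, fun x hx y hy ox oy => ?_⟩
    obtain ⟨k1, k2⟩ := key x hx y hy ox oy
    rw [lt_iff, lt_iff]
    refine pos_iff (cp := u - v) (cq := v) ?_ c1
    rw [k2]
    linear_combination -k1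
  by_cases c2 : 0 < v * (-u)
  · refine ⟨1, 2, by decide, fun x hx y hy ox oy => ?_⟩
    obtain ⟨k1, k2⟩ := key x hx y hy ox oy
    rw [lt_iff, lt_iff]
    refine pos_iff (cp := v) (cq := -u) ?_ c2
    linear_combination -k1
  · have c1' : (u - v) * v < 0 := lt_of_le_of_ne (not_lt.1 c1) (mul_ne_zero huv' hv)
    have c2' : v * (-u) < 0 := lt_of_le_of_ne (not_lt.1 c2) (mul_ne_zero hv (neg_ne_zero.2 hu))
    have c3 : 0 < (u - v) * (-u) := by
      have h1 : 0 < ((u - v) * v) * (v * (-u)) := mul_pos_of_neg_of_neg c1' c2'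
      have h2 : ((u - v) * v) * (v * (-u)) = (v * v) * ((u - v) * (-u)) := by ring
      rw [h2] at h1
      exact (pos_iff_pos_of_mul_pos h1).1 (mul_self_pos.2 hv)
    refine ⟨0, 2, by decide, fun x hx y hy ox oy => ?_⟩
    obtain ⟨k1, k2⟩ := key x hx y hy ox oy
    rw [lt_iff, lt_iff]
    refine pos_iff (cp := u - v) (cq := -u) ?_ c3
    rw [k2]
    linear_combination k1

end Classify

open Classify in
/-- A cover of the plane grid by lines, in barycentric coordinates. -/
theorem classify (n k N : ℕ) (h : HasCover n 2 k N) :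
    ∃ (r : ℕ) (A : Fin 3 → ℕ → ℕ) (L : Fin r → Finset (Fin 3 → ℕ)),
      (∀ j, L j ⊆ tri n) ∧
      (∀ j, ∀ x ∈ L j, ∀ y ∈ L j, ∀ i, x i = y i → x = y) ∧
      (∀ j, ∃ p q : Fin 3, p ≠ q ∧ ∀ x ∈ L j, ∀ y ∈ L j, (x p < y p ↔ x q < y q)) ∧
      (∀ x ∈ tri n, k ≤ ∑ i, A i (x i) + (Finset.univ.filter fun j => x ∈ L j).card) ∧
      ∑ i, ∑ c ∈ Finset.range n, A i c + r ≤ N := by
  classical
  obtain ⟨H, hH, hcov⟩ := h
  choose a b ha hab using hH
  set U : Fin N → ℝ := fun j => a j 0 with hU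
  set V : Fin N → ℝ := fun j => a j 1 with hV
  have hne : ∀ j, U j ≠ 0 ∨ V j ≠ 0 := by
    intro j
    by_contra hcon
    push Not at hcon
    apply ha j
    funext i
    fin_cases i
    · exact hcon.1
    · exact hcon.2
  set R : Finset (Fin N) := Finset.univ.filter fun j => gen (U j) (V j) with hR
  set e : Fin R.card ≃ R := R.equivFin.symm with he
  have hRm : ∀ j : Fin R.card, gen (U (e j)) (V (e j)) := by
    intro j
    exact (Finset.mem_filter.1 (e j).2).2
  refine ⟨R.card, fun i c => (Finset.univ.filter fun j => ax n (U j) (V j) (b j) i c).card,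
    fun j => (tri n).filter fun x => on (U (e j)) (V (e j)) (b (e j)) x,
    fun j => Finset.filter_subset _ _, ?_, ?_, ?_, ?_⟩
  · intro j x hx y hy i hi
    rw [Finset.mem_filter] at hx hy
    exact inj_of_gen (hRm j) hx.1 hy.1 hx.2 hy.2 i hi
  · intro j
    obtain ⟨p, q, hpq, hm⟩ := mono_of_gen (n := n) (w := b (e j)) (hRm j)
    refine ⟨p, q, hpq, fun x hx y hy => ?_⟩
    rw [Finset.mem_filter] at hx hy
    exact hm x hx.1 y hy.1 hx.2 hy.2
  · intro x hx
    have hgrid : (![(x 1 : ℝ), (x 2 : ℝ)] : Fin 2 → ℝ) ∈ grid 2 n := by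
      refine ⟨![x 1, x 2], fun i => ?_, ?_⟩
      · fin_cases i <;> simp
      · rw [mem_tri_iff] at hx
        simp only [Fin.sum_univ_two, Matrix.cons_val_zero, Matrix.cons_val_one]
        omega
    have h1 := hcov _ hgrid
    refine h1.trans ?_
    have hsub : {j : Fin N | (![(x 1 : ℝ), (x 2 : ℝ)] : Fin 2 → ℝ) ∈ H j} ⊆
        ((((Finset.univ : Finset (Fin 3)).biUnion fun i =>
          Finset.univ.filter fun j => ax n (U j) (V j) (b j) i (x i)) ∪
          (R.filter fun j => on (U j) (V j) (b j) x) : Finset (Fin N)) : Set (Fin N)) := by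
      intro j hj
      have hon : on (U j) (V j) (b j) x := by
        rw [Set.mem_setOf_eq, hab j, Set.mem_setOf_eq] at hj
        simpa [Fin.sum_univ_two, on, hU, hV] using hj
      rw [Finset.mem_coe, Finset.mem_union]
      rcases ax_of_on hx hon with ⟨i, hi⟩ | hg
      · left
        rw [Finset.mem_biUnion]
        exact ⟨i, Finset.mem_univ _, Finset.mem_filter.2 ⟨Finset.mem_univ _, hi⟩⟩
      · right
        rw [Finset.mem_filter, hR, Finset.mem_filter]
        exact ⟨⟨Finset.mem_univ _, hg⟩, hon⟩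
    refine (Set.ncard_le_ncard hsub (Finset.finite_toSet _)).trans ?_
    rw [Set.ncard_coe_finset]
    refine (Finset.card_union_le _ _).trans ?_
    refine add_le_add Finset.card_biUnion_le (le_of_eq ?_)
    refine (Finset.card_bij (fun (j : Fin R.card) _ => ((e j : R) : Fin N)) ?_ ?_ ?_).symm
    · intro j hj
      rw [Finset.mem_filter, Finset.mem_filter] at hj
      rw [Finset.mem_filter]
      exact ⟨(e j).2, hj.2.2⟩
    · intro j1 _ j2 _ hj
      exact e.injective (Subtype.ext hj)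
    · intro j hj
      rw [Finset.mem_filter] at hj
      refine ⟨e.symm ⟨j, hj.1⟩, ?_, by simp⟩
      refine Finset.mem_filter.2 ⟨Finset.mem_univ _, Finset.mem_filter.2 ⟨hx, ?_⟩⟩
      simpa using hj.2
  · have hcount : ∀ j : Fin N, ∑ i : Fin 3, ∑ c ∈ Finset.range n,
        (if ax n (U j) (V j) (b j) i c then 1 else 0) + (if j ∈ R then 1 else 0) ≤ 1 := by
      intro j
      by_cases hj : gen (U j) (V j)
      · have : j ∈ R := by rw [hR, Finset.mem_filter]; exact ⟨Finset.mem_univ _, hj⟩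
        rw [if_pos this]
        simp [not_ax_of_gen hj]
      · have : j ∉ R := by rw [hR, Finset.mem_filter]; exact fun h => hj h.2
        rw [if_neg this, add_zero, ← Finset.sum_product', ← Finset.card_filter]
        rw [Finset.card_le_one]
        intro p hp q hq
        rw [Finset.mem_filter] at hp hq
        have := ax_unique (hne j) hp.2 hq.2
        exact Prod.ext this.1 this.2
    have e1 : R.card = ∑ j : Fin N, if j ∈ R then 1 else 0 := by
      rw [← Finset.card_filter]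
      congr 1
      ext j
      simp
    calc ∑ i : Fin 3, ∑ c ∈ Finset.range n,
          (Finset.univ.filter fun j => ax n (U j) (V j) (b j) i c).card + R.card
        = ∑ j : Fin N, (∑ i : Fin 3, ∑ c ∈ Finset.range n,
          (if ax n (U j) (V j) (b j) i c then 1 else 0) + (if j ∈ R then 1 else 0)) := by
          rw [Finset.sum_add_distrib, ← e1]
          congr 1
          simp only [Finset.card_filter]
          rw [Finset.sum_comm]
          simp only [Finset.sum_comm (s := Finset.range n)]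
          rw [Finset.sum_comm]
      _ ≤ ∑ j : Fin N, 1 := Finset.sum_le_sum fun j _ => hcount j
      _ = N := by simp

end TriGrid
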