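import Mathlib

namespace TriGrid

/-- The triangular grid `T_d(n)`: the points of `ℝ^d` with nonnegative integer coordinates whose
sum is at most `n - 1` (that is, sum plus one is at most `n`). -/
def grid (d n : ℕ) : Set (Fin d → ℝ) :=
  {x | ∃ y : Fin d → ℕ, (∀ i, x i = (y i : ℝ)) ∧ ∑ i, y i + 1 ≤ n}

/-- Affine hyperplanes of `ℝ^d`. -/
def IsHyperplane {d : ℕ} (H : Set (Fin d → ℝ)) : Prop :=
  ∃ (a : Fin d → ℝ) (b : ℝ), a ≠ 0 ∧ H = {x | ∑ i, a i * x i = b}

/-- `T_d(n)` has a `k`-cover with `N` members (a finite multiset of `N` affine hyperplanes, listed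
with multiplicity as `H 0, ..., H (N-1)`, such that each grid point is on at least `k` of them). -/
def HasCover (n d k N : ℕ) : Prop :=
  ∃ H : Fin N → Set (Fin d → ℝ), (∀ j, IsHyperplane (H j)) ∧
    ∀ x ∈ grid d n, k ≤ {j : Fin N | x ∈ H j}.ncard

/-- `f(n,d,k)`, the least size of a `k`-cover of `T_d(n)`. -/
noncomputable def f (n d k : ℕ) : ℕ := sInf {N | HasCover n d k N}

end TriGrid
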