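import Mathlib

/-! Piece LIM of MP_7e32a6_co: the limit of `F n / n` from the sampling inequality. -/

open Filter Topology

namespace TriGrid

theorem limit_of_sampling (F : ℕ → ℕ) (d A : ℕ) (hmono : Monotone F) (hA : ∀ n, F n ≤ A * n)
    (hs : ∀ n l : ℕ, 1 ≤ l → l * F n ≤ F (l * (n + d))) :
    ∃ C : ℝ, 0 ≤ C ∧ Tendsto (fun n : ℕ => (F n : ℝ) / n) atTop (𝓝 C) ∧
      ∀ n : ℕ, (F n : ℝ) ≤ C * (n + d) := by
  have hF0 : F 0 = 0 := by have := hA 0; omega
  set g : ℕ → ℝ := fun n => (F n : ℝ) / (n + d) with hg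
  have hgA : ∀ n, g n ≤ A := by
    intro n
    rcases Nat.eq_zero_or_pos (n + d) with h | h
    · have h1 : n = 0 := by omega
      subst h1
      simp [hg, hF0]
    · have h2 : (0 : ℝ) < (n : ℝ) + d := by exact_mod_cast h
      rw [hg]
      simp only
      rw [div_le_iff₀ h2]
      have h3 : (F n : ℝ) ≤ A * n := by exact_mod_cast hA n
      have h4 : (0 : ℝ) ≤ (A : ℝ) * d := by positivity
      nlinarith
  have hbdd : BddAbove (Set.range g) := ⟨A, by rintro _ ⟨n, rfl⟩; exact hgA n⟩
  set C : ℝ := ⨆ n, g n with hC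
  have hgC : ∀ n, g n ≤ C := fun n => le_ciSup hbdd n
  have hg0 : ∀ n, 0 ≤ g n := fun n => by simp only [hg]; positivity
  have hC0 : 0 ≤ C := (hg0 0).trans (hgC 0)
  have hup : ∀ n : ℕ, (F n : ℝ) ≤ C * (n + d) := by
    intro n
    rcases Nat.eq_zero_or_pos (n + d) with h | h
    · have h1 : n = 0 := by omega
      subst h1
      rw [hF0]
      push_cast
      positivity
    · have h2 : (0 : ℝ) < (n : ℝ) + d := by exact_mod_cast h
      have := hgC n
      simp only [hg] at this
      rwa [div_le_iff₀ h2] at this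
  refine ⟨C, hC0, ?_, hup⟩
  rw [Metric.tendsto_atTop]
  intro ε hε
  -- choose m with g m > C - ε/2
  obtain ⟨m0, hm0⟩ := exists_lt_of_lt_ciSup (show C - ε / 2 < ⨆ n, g n by rw [← hC]; linarith)
  -- make m + d positive
  obtain ⟨m, hmd, hm⟩ : ∃ m : ℕ, 1 ≤ m + d ∧ C - ε / 2 < g m := by
    rcases Nat.eq_zero_or_pos (m0 + d) with h | h
    · have h1 : m0 = 0 := by omega
      have h2 : d = 0 := by omega
      subst h1
      subst h2
      refine ⟨1, le_refl _, lt_of_lt_of_le hm0 ?_⟩
      have : g 0 = 0 := by simp [hg, hF0]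
      rw [this]; exact hg0 1
    · exact ⟨m0, h, hm0⟩
  obtain ⟨N1, hN1⟩ := exists_nat_gt (2 * (F m : ℝ) / ε)
  obtain ⟨N2, hN2⟩ := exists_nat_gt (C * d / ε)
  refine ⟨N1 + N2 + 1, fun n hn => ?_⟩
  have hnpos : (0 : ℝ) < n := by
    have : 0 < n := by omega
    exact_mod_cast this
  have hn1 : (N1 : ℝ) ≤ n := by
    have : N1 ≤ n := by omega
    exact_mod_cast this
  have hn2 : (N2 : ℝ) < n := by
    have : N2 < n := by omega
    exact_mod_cast this
  rw [Real.dist_eq, abs_lt]
  have hmd' : (0 : ℝ) < (m : ℝ) + d := by exact_mod_cast hmd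
  constructor
  · -- lower bound
    set l := n / (m + d) with hl
    have hlow : (l : ℝ) * F m ≤ F n := by
      rcases Nat.eq_zero_or_pos l with h | h
      · rw [h]; simp
      · have h1 : l * F m ≤ F (l * (m + d)) := hs m l h
        have h2 : F (l * (m + d)) ≤ F n := hmono (Nat.div_mul_le_self n (m + d))
        exact_mod_cast h1.trans h2
    have hl2 : (n : ℝ) < (l + 1) * (m + d) := by
      have h0 : n < (l + 1) * (m + d) := by
        have h := Nat.div_add_mod n (m + d)
        have h' := Nat.mod_lt n hmd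
        rw [hl]
        nlinarith
      exact_mod_cast h0
    have h5 : (n : ℝ) * g m ≤ F n + F m := by
      have h6 : (n : ℝ) * g m ≤ (l + 1) * F m := by
        simp only [hg]
        rw [← mul_div_assoc, div_le_iff₀ hmd']
        nlinarith [Nat.cast_nonneg (α := ℝ) (F m)]
      linarith
    have h7 : 2 * (F m : ℝ) < ε * n := by
      rw [div_lt_iff₀ hε] at hN1
      nlinarith
    have h8 : C - ε / 2 < ((F n : ℝ) + F m) / n := by
      rw [lt_div_iff₀ hnpos]
      nlinarith
    have h9 : ((F n : ℝ) + F m) / n = F n / n + F m / n := by ring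
    have h10 : (F m : ℝ) / n < ε / 2 := by
      rw [div_lt_iff₀ hnpos]; linarith
    linarith
  · have h1 := hup n
    have h2 : C * d < ε * n := by
      rw [div_lt_iff₀ hε] at hN2
      nlinarith
    have h3 : (F n : ℝ) / n < C + ε := by
      rw [div_lt_iff₀ hnpos]
      nlinarith
    linarith

end TriGrid
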