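import Pool.Agent.Lib_MP_7e32a6_co.PlaneDefs

/-!
# The main inequality (double counting over slices, Abel summation)
-/

namespace TriGrid

namespace MainAux

/-- number of `c < n` with `t < a c` -/
def bb (a : ℕ → ℕ) (n t : ℕ) : ℕ := ((Finset.range n).filter fun c => t < a c).card

theorem cc_nonempty (a : ℕ → ℕ) (n l : ℕ) : {c | a c ≤ l ∨ n ≤ c}.Nonempty :=
  ⟨n, Or.inr le_rfl⟩

theorem cc_spec (a : ℕ → ℕ) (n l : ℕ) : a (cc a n l) ≤ l ∨ n ≤ cc a n l :=
  Nat.sInf_mem (cc_nonempty a n l)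

theorem cc_le (a : ℕ → ℕ) (n l : ℕ) : cc a n l ≤ n :=
  Nat.sInf_le (Or.inr le_rfl)

theorem cc_le_bb (a : ℕ → ℕ) (n l : ℕ) : cc a n l ≤ bb a n l := by
  unfold bb
  calc cc a n l = (Finset.range (cc a n l)).card := (Finset.card_range _).symm
    _ ≤ _ := by
      apply Finset.card_le_card
      intro c hc
      rw [Finset.mem_range] at hc
      have h1 : ¬ (a c ≤ l ∨ n ≤ c) := Nat.notMem_of_lt_sInf hc
      rw [not_or, not_le, not_le] at h1
      rw [Finset.mem_filter, Finset.mem_range]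
      exact ⟨h1.2, h1.1⟩

theorem min_eq_sum (v a : ℕ) : min v a = ∑ t ∈ Finset.range v, if t < a then 1 else 0 := by
  rw [← Finset.sum_filter, Finset.sum_const, smul_eq_mul, mul_one]
  have : (Finset.range v).filter (fun t => t < a) = Finset.range (min v a) := by
    ext t
    simp [Finset.mem_filter, Finset.mem_range]
  rw [this, Finset.card_range]

theorem sum_min (a : ℕ → ℕ) (n v : ℕ) :
    ∑ c ∈ Finset.range n, min v (a c) = ∑ t ∈ Finset.range v, bb a n t := by
  simp only [min_eq_sum]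
  rw [Finset.sum_comm]
  refine Finset.sum_congr rfl fun t _ => ?_
  unfold bb
  rw [Finset.card_filter]

/-- the points of a slice -/
def pt (n : ℕ) (i : Fin 3) (c t : ℕ) : Fin 3 → ℕ :=
  fun j => if j = i then c else if j = i + 1 then t else n - c - 1 - t

theorem pt_self (n : ℕ) (i : Fin 3) (c t : ℕ) : pt n i c t i = c := by
  unfold pt
  rw [if_pos rfl]

theorem pt_one (n : ℕ) (i : Fin 3) (c t : ℕ) : pt n i c t (i + 1) = t := by
  unfold pt
  rw [if_neg (by fin_cases i <;> decide), if_pos rfl]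

theorem pt_two (n : ℕ) (i : Fin 3) (c t : ℕ) : pt n i c t (i + 2) = n - c - 1 - t := by
  unfold pt
  rw [if_neg (by fin_cases i <;> decide), if_neg (by fin_cases i <;> decide)]

theorem sum_erase (i : Fin 3) (g : Fin 3 → ℕ) :
    ∑ j ∈ Finset.univ.erase i, g j = g (i + 1) + g (i + 2) := by
  fin_cases i
  · have : (Finset.univ : Finset (Fin 3)).erase 0 = {1, 2} := by decide
    show ∑ j ∈ Finset.univ.erase (0 : Fin 3), g j = g 1 + g 2
    rw [this, Finset.sum_pair (by decide)]
  · have : (Finset.univ : Finset (Fin 3)).erase 1 = {2, 0} := by decide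
    show ∑ j ∈ Finset.univ.erase (1 : Fin 3), g j = g 2 + g 0
    rw [this, Finset.sum_pair (by decide)]
  · have : (Finset.univ : Finset (Fin 3)).erase 2 = {0, 1} := by decide
    show ∑ j ∈ Finset.univ.erase (2 : Fin 3), g j = g 0 + g 1
    rw [this, Finset.sum_pair (by decide)]

theorem pt_mem {n : ℕ} {i : Fin 3} {c t : ℕ} (ht : t < n - c) : pt n i c t ∈ tri n := by
  unfold tri
  rw [Finset.mem_filter, Fintype.mem_piFinset]
  refine ⟨fun j => ?_, ?_⟩
  · rw [Finset.mem_range]
    unfold pt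
    split_ifs <;> omega
  · fin_cases i
    · have h0 := pt_self n 0 c t
      have h1 : pt n 0 c t 1 = t := pt_one n 0 c t
      have h2 : pt n 0 c t 2 = n - c - 1 - t := pt_two n 0 c t
      show pt n 0 c t 0 + pt n 0 c t 1 + pt n 0 c t 2 + 1 = n
      omega
    · have h0 := pt_self n 1 c t
      have h1 : pt n 1 c t 2 = t := pt_one n 1 c t
      have h2 : pt n 1 c t 0 = n - c - 1 - t := pt_two n 1 c t
      show pt n 1 c t 0 + pt n 1 c t 1 + pt n 1 c t 2 + 1 = n
      omega
    · have h0 := pt_self n 2 c t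
      have h1 : pt n 2 c t 0 = t := pt_one n 2 c t
      have h2 : pt n 2 c t 1 = n - c - 1 - t := pt_two n 2 c t
      show pt n 2 c t 0 + pt n 2 c t 1 + pt n 2 c t 2 + 1 = n
      omega

theorem tri_lt {n : ℕ} {x : Fin 3 → ℕ} (hx : x ∈ tri n) (i : Fin 3) : x i < n := by
  unfold tri at hx
  rw [Finset.mem_filter, Fintype.mem_piFinset] at hx
  exact Finset.mem_range.1 (hx.1 i)

/-- The inequality for one slice. -/
theorem slice_ineq (A : Fin 3 → ℕ → ℕ) (n k : ℕ) (i : Fin 3) (l : ℕ) (c : ℕ) :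
    (k - l) * (n - c) ≤
      (∑ t ∈ Finset.range (k - l), bb (A (i + 1)) n t) +
      (∑ t ∈ Finset.range (k - l), bb (A (i + 2)) n t) +
      ∑ x ∈ (tri n).filter (fun x => x i = c), need A k i l x := by
  have h1 : (k - l) * (n - c) = ∑ t ∈ Finset.range (n - c), (k - l) := by
    rw [Finset.sum_const, Finset.card_range, smul_eq_mul, mul_comm]
  have h2 : ∀ t ∈ Finset.range (n - c), k - l ≤ min (k - l) (A (i + 1) t) +
      min (k - l) (A (i + 2) (n - c - 1 - t)) + need A k i l (pt n i c t) := by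
    intro t _
    unfold need
    rw [sum_erase, pt_one, pt_two]
    omega
  have h3 : ∑ t ∈ Finset.range (n - c), min (k - l) (A (i + 1) t) ≤
      ∑ t ∈ Finset.range (k - l), bb (A (i + 1)) n t := by
    rw [← sum_min]
    exact Finset.sum_le_sum_of_subset (Finset.range_mono (Nat.sub_le n c))
  have h4 : ∑ t ∈ Finset.range (n - c), min (k - l) (A (i + 2) (n - c - 1 - t)) ≤
      ∑ t ∈ Finset.range (k - l), bb (A (i + 2)) n t := by
    rw [← sum_min, Finset.sum_range_reflect (fun t => min (k - l) (A (i + 2) t)) (n - c)]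
    exact Finset.sum_le_sum_of_subset (Finset.range_mono (Nat.sub_le n c))
  have h5 : ∑ t ∈ Finset.range (n - c), need A k i l (pt n i c t) ≤
      ∑ x ∈ (tri n).filter (fun x => x i = c), need A k i l x := by
    have hinj : Set.InjOn (pt n i c) (Finset.range (n - c) : Set ℕ) := by
      intro t _ t' _ he
      have := congrFun he (i + 1)
      rwa [pt_one, pt_one] at this
    rw [← Finset.sum_image (f := need A k i l) (g := pt n i c) hinj]
    apply Finset.sum_le_sum_of_subset
    intro x hx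
    rw [Finset.mem_image] at hx
    obtain ⟨t, ht, rfl⟩ := hx
    rw [Finset.mem_filter]
    exact ⟨pt_mem (Finset.mem_range.1 ht), pt_self n i c t⟩
  rw [h1]
  calc ∑ t ∈ Finset.range (n - c), (k - l) ≤ _ := Finset.sum_le_sum h2
    _ = _ := by rw [Finset.sum_add_distrib, Finset.sum_add_distrib]
    _ ≤ _ := Nat.add_le_add (Nat.add_le_add h3 h4) h5

theorem sum_inc (G : ℕ → ℚ) (p : ℕ) : ∑ l ∈ Finset.range (p + 1), inc G l = G p := by
  induction p with
  | zero => simp [inc]
  | succ p ih =>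
    rw [Finset.sum_range_succ, ih]
    unfold inc
    rw [if_neg (Nat.succ_ne_zero p), Nat.add_sub_cancel]
    ring

theorem inc_nonneg {G : ℕ → ℚ} (hG0 : ∀ p, 0 ≤ G p) (hGm : Monotone G) (l : ℕ) :
    0 ≤ inc G l := by
  unfold inc
  split_ifs
  · simpa using hG0 l
  · have := hGm (Nat.sub_le l 1)
    linarith

theorem abel (G : ℕ → ℚ) (k : ℕ) :
    ∑ l ∈ Finset.range k, ((k : ℚ) - l) * inc G l = ∑ l ∈ Finset.range k, G l := by
  induction k with
  | zero => simp
  | succ k ih =>
    rw [Finset.sum_range_succ (fun l => G l), ← ih, ← sum_inc G k,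
      Finset.sum_range_succ, Finset.sum_range_succ, ← add_assoc]
    rw [← Finset.sum_add_distrib]
    congr 1
    · refine Finset.sum_congr rfl fun l _ => ?_
      push_cast
      ring
    · push_cast
      ring

/-- exchange: `∑_{l<k} I_l ∑_{t<k-l} b_t = ∑_{t<k} b_t G(k-1-t)` -/
theorem exchange (G : ℕ → ℚ) (k : ℕ) (b : ℕ → ℚ) :
    ∑ l ∈ Finset.range k, inc G l * ∑ t ∈ Finset.range (k - l), b t =
      ∑ t ∈ Finset.range k, b t * G (k - 1 - t) := by
  have h1 : ∀ t ∈ Finset.range k, b t * G (k - 1 - t) =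
      ∑ l ∈ Finset.range (k - t), b t * inc G l := by
    intro t ht
    rw [Finset.mem_range] at ht
    rw [← Finset.mul_sum, ← sum_inc G (k - 1 - t)]
    congr 3
    omega
  rw [Finset.sum_congr rfl h1]
  simp only [Finset.mul_sum]
  rw [Finset.sum_sigma', Finset.sum_sigma']
  refine Finset.sum_nbij' (fun p => ⟨p.2, p.1⟩) (fun p => ⟨p.2, p.1⟩) ?_ ?_ ?_ ?_ ?_
  · rintro ⟨l, t⟩ h
    simp only [Finset.mem_sigma, Finset.mem_range] at h ⊢
    omega
  · rintro ⟨l, t⟩ h
    simp only [Finset.mem_sigma, Finset.mem_range] at h ⊢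
    omega
  · rintro ⟨l, t⟩ _
    rfl
  · rintro ⟨l, t⟩ _
    rfl
  · rintro ⟨l, t⟩ _
    simp only
    ring

theorem need_le_defi {A : Fin 3 → ℕ → ℕ} {k : ℕ} {i : Fin 3} {l : ℕ} {x : Fin 3 → ℕ}
    (h : A i (x i) ≤ l) : need A k i l x ≤ defi A k x := by
  unfold need defi
  rw [← Finset.add_sum_erase Finset.univ (fun j => A j (x j)) (Finset.mem_univ i)]
  omega

end MainAux

open MainAux

theorem main_ineq {ι : Type*} [Fintype ι] (A : Fin 3 → ℕ → ℕ) (n k : ℕ) (hk : 1 ≤ k)
    (L : ι → Finset (Fin 3 → ℕ)) (hL : ∀ j, L j ⊆ tri n)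
    (hinj : ∀ j, ∀ x ∈ L j, ∀ y ∈ L j, ∀ i, x i = y i → x = y)
    (hcov : ∀ x ∈ tri n, k ≤ ∑ i, A i (x i) + (Finset.univ.filter fun j => x ∈ L j).card)
    (G : ℕ → ℚ) (hG0 : ∀ p, 0 ≤ G p) (hGm : Monotone G)
    (hA : ∀ l < k, ((k : ℚ) - l) * inc G l + 2 * G (k - 1 - l) ≤ 1)
    (hch : ∀ j, charge A n k G (L j) ≤ 1) :
    3 * (∑ l ∈ Finset.range k, G l) * n ≤
      ((∑ i, ∑ c ∈ Finset.range n, A i c + Fintype.card ι : ℕ) : ℚ) := by
  classical
  have hI := inc_nonneg hG0 hGm
  -- the sum of the needs over a slice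
  set N : Fin 3 → ℕ → ℚ := fun i l =>
    ∑ x ∈ (tri n).filter (fun x => x i = cc (A i) n l), (need A k i l x : ℚ) with hN
  set X : Fin 3 → ℕ → ℚ := fun i v => ∑ t ∈ Finset.range v, (bb (A i) n t : ℚ) with hX
  -- need part
  have hneed : ∑ i : Fin 3, ∑ l ∈ Finset.range k, inc G l * N i l ≤ (Fintype.card ι : ℚ) := by
    have e1 : (Fintype.card ι : ℚ) = ∑ _j : ι, (1 : ℚ) := by
      rw [Finset.sum_const, Finset.card_univ, nsmul_eq_mul, mul_one]
    rw [e1]
    have e0 : ∑ j : ι, charge A n k G (L j) ≤ ∑ _j : ι, (1 : ℚ) :=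
      Finset.sum_le_sum fun j _ => hch j
    refine le_trans ?_ e0
    unfold charge
    rw [Finset.sum_comm (s := (Finset.univ : Finset ι))]
    refine Finset.sum_le_sum fun i _ => ?_
    rw [Finset.sum_comm (s := (Finset.univ : Finset ι))]
    refine Finset.sum_le_sum fun l hl => ?_
    rw [← Finset.mul_sum]
    refine mul_le_mul_of_nonneg_left ?_ (hI l)
    have e2 : ∀ j : ι, ∑ x ∈ (L j).filter (fun x => x i = cc (A i) n l),
        (need A k i l x : ℚ) / (defi A k x : ℚ) =
        ∑ x ∈ (tri n).filter (fun x => x i = cc (A i) n l),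
          if x ∈ L j then (need A k i l x : ℚ) / (defi A k x : ℚ) else 0 := by
      intro j
      rw [← Finset.sum_filter]
      refine Finset.sum_congr ?_ fun _ _ => rfl
      ext x
      simp only [Finset.mem_filter]
      constructor
      · rintro ⟨h1, h2⟩
        exact ⟨⟨hL j h1, h2⟩, h1⟩
      · rintro ⟨⟨_, h2⟩, h1⟩
        exact ⟨h1, h2⟩
    rw [Finset.sum_congr rfl fun j _ => e2 j, Finset.sum_comm]
    refine Finset.sum_le_sum fun x hx => ?_
    rw [← Finset.sum_filter, Finset.sum_const, nsmul_eq_mul]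
    rw [Finset.mem_filter] at hx
    have hlt := tri_lt hx.1 i
    have hAl : A i (x i) ≤ l := by
      rcases cc_spec (A i) n l with h | h
      · rw [hx.2]; exact h
      · rw [← hx.2] at h; omega
    have hnd := need_le_defi (k := k) hAl
    have hc := hcov x hx.1
    have hdc : defi A k x ≤ (Finset.univ.filter fun j => x ∈ L j).card := by
      unfold defi
      omega
    rcases Nat.eq_zero_or_pos (defi A k x) with h0 | h0
    · rw [h0] at hnd ⊢
      have : need A k i l x = 0 := Nat.le_zero.1 hnd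
      rw [this]
      simp
    · have h0' : (0 : ℚ) < defi A k x := by exact_mod_cast h0
      rw [mul_div_assoc', le_div_iff₀ h0', mul_comm]
      exact mul_le_mul_of_nonneg_right (by exact_mod_cast hdc) (by positivity)
  -- slices
  have hslice : ∀ i : Fin 3, ∀ l ∈ Finset.range k,
      ((k : ℚ) - l) * (n : ℚ) * inc G l ≤ ((k : ℚ) - l) * inc G l * (bb (A i) n l : ℚ) +
        inc G l * (X (i + 1) (k - l) + X (i + 2) (k - l)) + inc G l * N i l := by
    intro i l hl
    rw [Finset.mem_range] at hl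
    have h := slice_ineq A n k i l (cc (A i) n l)
    have h' : ((k : ℚ) - l) * ((n : ℚ) - cc (A i) n l) ≤ X (i + 1) (k - l) + X (i + 2) (k - l) +
        N i l := by
      have h2 : (((k - l) * (n - cc (A i) n l) : ℕ) : ℚ) ≤ _ := Nat.cast_le.2 h
      rw [Nat.cast_mul, Nat.cast_sub hl.le, Nat.cast_sub (cc_le _ _ _)] at h2
      push_cast at h2
      exact h2
    have h3 : (cc (A i) n l : ℚ) ≤ bb (A i) n l := by exact_mod_cast cc_le_bb _ _ _
    have hkl : (0 : ℚ) ≤ (k : ℚ) - l := by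
      have : (l : ℚ) ≤ k := by exact_mod_cast hl.le
      linarith
    have h4 := mul_le_mul_of_nonneg_left h' (hI l)
    have h5 := mul_le_mul_of_nonneg_left h3 (mul_nonneg hkl (hI l))
    nlinarith [h4, h5]
  -- summation
  have hsum := Finset.sum_le_sum fun i (_ : i ∈ (Finset.univ : Finset (Fin 3))) =>
    Finset.sum_le_sum (hslice i)
  -- left side
  have hleft : ∑ i : Fin 3, ∑ l ∈ Finset.range k, ((k : ℚ) - l) * (n : ℚ) * inc G l =
      3 * (∑ l ∈ Finset.range k, G l) * n := by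
    rw [← abel G k, Finset.sum_const, Finset.card_univ, Fintype.card_fin, nsmul_eq_mul,
      Finset.mul_sum, mul_assoc, Finset.sum_mul, Finset.mul_sum]
    refine Finset.sum_congr rfl fun l _ => ?_
    push_cast
    ring
  -- middle
  have hmid : ∑ i : Fin 3, ∑ l ∈ Finset.range k,
      inc G l * (X (i + 1) (k - l) + X (i + 2) (k - l)) =
      ∑ i : Fin 3, ∑ t ∈ Finset.range k, 2 * ((bb (A i) n t : ℚ) * G (k - 1 - t)) := by
    have e : ∀ i : Fin 3, ∑ l ∈ Finset.range k, inc G l * X i (k - l) =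
        ∑ t ∈ Finset.range k, (bb (A i) n t : ℚ) * G (k - 1 - t) := fun i =>
      exchange G k fun t => (bb (A i) n t : ℚ)
    have e1 : ∑ i : Fin 3, ∑ l ∈ Finset.range k,
      inc G l * (X (i + 1) (k - l) + X (i + 2) (k - l)) =
      ∑ i : Fin 3, ∑ l ∈ Finset.range k, inc G l * X (i + 1) (k - l) +
      ∑ i : Fin 3, ∑ l ∈ Finset.range k, inc G l * X (i + 2) (k - l) := by
      simp only [mul_add, Finset.sum_add_distrib]
    have e2 : ∑ i : Fin 3, ∑ l ∈ Finset.range k, inc G l * X (i + 1) (k - l) =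
        ∑ i : Fin 3, ∑ l ∈ Finset.range k, inc G l * X i (k - l) :=
      Equiv.sum_comp (Equiv.addRight (1 : Fin 3))
        fun i => ∑ l ∈ Finset.range k, inc G l * X i (k - l)
    have e3 : ∑ i : Fin 3, ∑ l ∈ Finset.range k, inc G l * X (i + 2) (k - l) =
        ∑ i : Fin 3, ∑ l ∈ Finset.range k, inc G l * X i (k - l) :=
      Equiv.sum_comp (Equiv.addRight (2 : Fin 3))
        fun i => ∑ l ∈ Finset.range k, inc G l * X i (k - l)
    rw [e1, e2, e3, ← two_mul, Finset.mul_sum]
    refine Finset.sum_congr rfl fun i _ => ?_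
    rw [e i, Finset.mul_sum]
  -- coefficient bound
  have hcoef : ∑ i : Fin 3, ∑ l ∈ Finset.range k, ((k : ℚ) - l) * inc G l * (bb (A i) n l : ℚ) +
      ∑ i : Fin 3, ∑ t ∈ Finset.range k, 2 * ((bb (A i) n t : ℚ) * G (k - 1 - t)) ≤
      ((∑ i, ∑ c ∈ Finset.range n, A i c : ℕ) : ℚ) := by
    rw [← Finset.sum_add_distrib]
    rw [Nat.cast_sum]
    refine Finset.sum_le_sum fun i _ => ?_
    rw [← Finset.sum_add_distrib]
    have h1 : ∑ t ∈ Finset.range k, bb (A i) n t ≤ ∑ c ∈ Finset.range n, A i c := by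
      rw [← sum_min]
      exact Finset.sum_le_sum fun c _ => min_le_right _ _
    have h1' : ∑ t ∈ Finset.range k, (bb (A i) n t : ℚ) ≤
        ((∑ c ∈ Finset.range n, A i c : ℕ) : ℚ) := by exact_mod_cast h1
    refine le_trans (Finset.sum_le_sum fun t ht => ?_) h1'
    rw [Finset.mem_range] at ht
    have h2 := mul_le_mul_of_nonneg_left (hA t ht) (Nat.cast_nonneg (α := ℚ) (bb (A i) n t))
    linarith
  rw [hleft] at hsum
  simp only [Finset.sum_add_distrib] at hsum
  rw [Nat.cast_add]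
  rw [hmid] at hsum
  linarith

end TriGrid
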