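import Pool.Agent.Lib_MP_7e32a6_co.PlaneDefs

/-! Piece WEIGHTS of MP_7e32a6_co: the explicit weights. -/

namespace TriGrid

namespace W

/-- the denominator -/
def DD (t e : ℕ) : ℚ := ((t : ℚ) + 1) * (3 * t + 2 * e)

/-- the weights -/
def GG (t e p : ℕ) : ℚ :=
  if p < 2 * t + e then
    (((p - t : ℕ) : ℚ)) * (3 * ((p - t : ℕ) : ℚ) + 3 - 2 * e) / (2 * DD t e)
  else 1 / 2

theorem DD_pos {t e : ℕ} (h : 1 ≤ t + e) : 0 < DD t e := by
  unfold DD
  have h1 : (1 : ℚ) ≤ t + e := by exact_mod_cast h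
  have h2 : (0 : ℚ) ≤ t := Nat.cast_nonneg t
  have h3 : (0 : ℚ) ≤ e := Nat.cast_nonneg e
  have h4 : (0 : ℚ) < 3 * t + 2 * e := by linarith
  positivity

theorem GG_lo {t e p : ℕ} (h : 1 ≤ t + e) (hp : p ≤ t) : GG t e p = 0 := by
  unfold GG
  rw [if_pos (by omega), Nat.sub_eq_zero_of_le hp]
  simp

theorem GG_mid {t e u : ℕ} (hu : u < t + e) :
    GG t e (t + u) = (u : ℚ) * (3 * u + 3 - 2 * e) / (2 * DD t e) := by
  unfold GG
  rw [if_pos (by omega), Nat.add_sub_cancel_left]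

theorem GG_hi {t e p : ℕ} (hp : 2 * t + e ≤ p) : GG t e p = 1 / 2 := by
  unfold GG
  rw [if_neg (by omega)]

theorem GG_nonneg {t e : ℕ} (he : e ≤ 2) (h : 1 ≤ t + e) (p : ℕ) : 0 ≤ GG t e p := by
  have hD := DD_pos h
  rcases le_or_gt p t with h1 | h1
  · rw [GG_lo h h1]
  rcases lt_or_ge p (2 * t + e) with h2 | h2
  · obtain ⟨u, rfl⟩ := Nat.exists_eq_add_of_le h1.le
    rw [GG_mid (by omega)]
    have hu : (1 : ℚ) ≤ u := by
      have : 1 ≤ u := by omega
      exact_mod_cast this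
    have he' : (e : ℚ) ≤ 2 := by exact_mod_cast he
    have : (0 : ℚ) ≤ 3 * u + 3 - 2 * e := by linarith
    positivity
  · rw [GG_hi h2]; norm_num

theorem GG_succ {t e : ℕ} (he : e ≤ 2) (h : 1 ≤ t + e) (p : ℕ) : GG t e p ≤ GG t e (p + 1) := by
  have hD := DD_pos h
  have he' : (e : ℚ) ≤ 2 := by exact_mod_cast he
  have he0 : (0 : ℚ) ≤ e := Nat.cast_nonneg e
  rcases lt_or_ge p t with h1 | h1
  · rw [GG_lo h h1.le]; exact GG_nonneg he h _
  obtain ⟨u, rfl⟩ := Nat.exists_eq_add_of_le h1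
  have hu0 : (0 : ℚ) ≤ u := Nat.cast_nonneg u
  rcases lt_or_ge (u + 1) (t + e) with h2 | h2
  · rw [GG_mid (by omega), add_assoc, GG_mid h2]
    refine div_le_div_of_nonneg_right ?_ (by positivity)
    push_cast
    nlinarith
  · rcases Nat.lt_or_ge u (t + e) with h3 | h3
    · have h4 : u + 1 = t + e := by omega
      rw [GG_mid h3, GG_hi (by omega), div_le_div_iff₀ (by positivity) (by norm_num)]
      have h5 : (u : ℚ) = t + e - 1 := by
        have : (u : ℚ) + 1 = t + e := by exact_mod_cast h4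
        linarith
      rw [h5]
      unfold DD
      have ht0 : (0 : ℚ) ≤ t := Nat.cast_nonneg t
      have h6 : 0 ≤ (3 - (e : ℚ)) * (2 * t + e) := by
        apply mul_nonneg <;> linarith
      nlinarith
    · rw [GG_hi (by omega), GG_hi (by omega)]

theorem GG_mono {t e : ℕ} (he : e ≤ 2) (h : 1 ≤ t + e) : Monotone (GG t e) :=
  monotone_nat_of_le_succ (GG_succ he h)

theorem GG_le {t e : ℕ} (he : e ≤ 2) (h : 1 ≤ t + e) (p : ℕ) : GG t e p ≤ 1 / 2 := by
  calc GG t e p ≤ GG t e (max p (2 * t + e)) := GG_mono he h (le_max_left _ _)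
    _ = 1 / 2 := GG_hi (le_max_right _ _)

theorem GG_pair {t e : ℕ} (he : e ≤ 2) (h : 1 ≤ t + e) (p : ℕ) (_hp : p < 3 * t + e + 1) :
    GG t e p + GG t e (3 * t + e + 1 - 1 - p) ≤ 1 / 2 := by
  have hD := DD_pos h
  rcases le_or_gt p t with h1 | h1
  · rw [GG_lo h h1, zero_add]; exact GG_le he h _
  rcases le_or_gt (3 * t + e + 1 - 1 - p) t with h2 | h2
  · rw [GG_lo h h2, add_zero]; exact GG_le he h _
  obtain ⟨u, hu⟩ := Nat.exists_eq_add_of_le h1.le
  obtain ⟨u', hu'⟩ := Nat.exists_eq_add_of_le h2.le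
  have hu1 : 1 ≤ u := by omega
  have hu1' : 1 ≤ u' := by omega
  have hsum : u + u' = t + e := by omega
  rw [hu', hu, GG_mid (by omega), GG_mid (by omega), ← add_div, div_le_div_iff₀ (by positivity)
    (by norm_num)]
  have ht : (t : ℚ) = u + u' - e := by
    have : (u : ℚ) + u' = t + e := by exact_mod_cast hsum
    linarith
  have a1 : (1 : ℚ) ≤ u := by exact_mod_cast hu1
  have a2 : (1 : ℚ) ≤ u' := by exact_mod_cast hu1'
  unfold DD
  rw [ht]
  have hprod : 0 ≤ ((u : ℚ) - 1) * (u' - 1) := mul_nonneg (by linarith) (by linarith)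
  interval_cases e
  · push_cast; nlinarith
  · push_cast; nlinarith
  · push_cast; nlinarith

theorem inc_eq {t e l : ℕ} (hl : 1 ≤ l) : inc (GG t e) l = GG t e l - GG t e (l - 1) := by
  unfold inc
  rw [if_neg (by omega)]

theorem GG_hA {t e : ℕ} (he : e ≤ 2) (h : 1 ≤ t + e) (l : ℕ) (hl : l < 3 * t + e + 1) :
    (((3 * t + e + 1 : ℕ) : ℚ) - l) * inc (GG t e) l + 2 * GG t e (3 * t + e + 1 - 1 - l) ≤ 1 := by
  have hD := DD_pos h
  have he0 : (0 : ℚ) ≤ e := Nat.cast_nonneg e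
  have ht0 : (0 : ℚ) ≤ t := Nat.cast_nonneg t
  rcases le_or_gt l t with h1 | h1
  · have : inc (GG t e) l = 0 := by
      unfold inc
      split_ifs with h0
      · rw [GG_lo h h1]; simp
      · rw [GG_lo h h1, GG_lo h (by omega)]; simp
    rw [this]
    have := GG_le he h (3 * t + e + 1 - 1 - l)
    linarith
  obtain ⟨s, hs⟩ := Nat.exists_eq_add_of_le h1.le
  have hs1 : 1 ≤ s := by omega
  obtain ⟨r, rfl⟩ := Nat.exists_eq_add_of_le' hs1
  rcases lt_trichotomy (r + 1) (t + e) with h2 | h2 | h2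
  · -- middle range
    obtain ⟨u, hu⟩ := Nat.exists_eq_add_of_le h2.le
    have e1 : l - 1 = t + r := by omega
    have e2 : 3 * t + e + 1 - 1 - l = t + u := by omega
    rw [inc_eq (by omega), e1, e2, hs, GG_mid (by omega), GG_mid (by omega), GG_mid (by omega)]
    have hD' : DD t e = ((t : ℚ) + 1) * (3 * t + 2 * e) := rfl
    have ht : (t : ℚ) = r + 1 + u - e := by
      have : (t : ℚ) + e = r + 1 + u := by exact_mod_cast hu
      linarith
    have key : ((((3 * t + e + 1 : ℕ) : ℚ) - ((t + (r + 1) : ℕ) : ℚ)) *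
        ((((r + 1 : ℕ) : ℚ)) * (3 * ((r + 1 : ℕ) : ℚ) + 3 - 2 * e) -
          (r : ℚ) * (3 * r + 3 - 2 * e)) + 2 * ((u : ℚ) * (3 * u + 3 - 2 * e))) = 2 * DD t e := by
      rw [hD']
      push_cast
      rw [ht]
      ring
    have : (((3 * t + e + 1 : ℕ) : ℚ) - ((t + (r + 1) : ℕ) : ℚ)) *
        ((((r + 1 : ℕ) : ℚ)) * (3 * ((r + 1 : ℕ) : ℚ) + 3 - 2 * e) / (2 * DD t e) -
          (r : ℚ) * (3 * r + 3 - 2 * e) / (2 * DD t e)) +
          2 * ((u : ℚ) * (3 * u + 3 - 2 * e) / (2 * DD t e)) = 1 := by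
      rw [← sub_div, mul_div_assoc', mul_div_assoc', ← add_div, key]
      exact div_self (by positivity)
    exact this.le
  · -- l = 2t + e
    have e1 : l - 1 = t + r := by omega
    have e2 : 3 * t + e + 1 - 1 - l = t := by omega
    have e3 : l = 2 * t + e := by omega
    rw [inc_eq (by omega), e1, e2, GG_lo h le_rfl, GG_mid (by omega), e3, GG_hi le_rfl]
    have hr : (r : ℚ) = t + e - 1 := by
      have : (r : ℚ) + 1 = t + e := by exact_mod_cast h2
      linarith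
    rw [hr]
    have h7 : (((3 * t + e + 1 : ℕ) : ℚ) - ((2 * t + e : ℕ) : ℚ)) = t + 1 := by push_cast; ring
    rw [h7]
    have h8 : (1 : ℚ) / 2 - (t + e - 1) * (3 * (t + e - 1) + 3 - 2 * e) / (2 * DD t e) =
        (DD t e - (t + e - 1) * (3 * (t + e - 1) + 3 - 2 * e)) / (2 * DD t e) := by
      field_simp
    rw [h8, mul_zero, add_zero, mul_div_assoc', div_le_one (by positivity)]
    unfold DD
    have h9 : 0 ≤ ((t : ℚ) + 1) * (2 * (e * t) + e ^ 2 + e) := by positivity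
    nlinarith
  · -- l > 2t+e
    have e2 : GG t e (3 * t + e + 1 - 1 - l) = 0 := GG_lo h (by omega)
    rw [inc_eq (by omega), GG_hi (by omega), GG_hi (by omega), e2]
    norm_num

theorem sum_low (t e n : ℕ) (hn : n ≤ t + e) (h : 1 ≤ t + e) :
    ∑ p ∈ Finset.range (t + n), GG t e p =
      (n : ℚ) * (n - 1) * (2 * n + 2 - 2 * e) / (4 * DD t e) := by
  have hD := DD_pos h
  induction n with
  | zero =>
    simp only [add_zero, Nat.cast_zero]
    rw [Finset.sum_eq_zero]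
    · simp
    · intro p hp
      exact GG_lo h (by rw [Finset.mem_range] at hp; omega)
  | succ n ih =>
    rw [← add_assoc, Finset.sum_range_succ, ih (by omega), GG_mid (by omega)]
    push_cast
    field_simp
    ring

theorem sum_all (t e : ℕ) (h : 1 ≤ t + e) :
    ∑ p ∈ Finset.range (3 * t + e + 1), GG t e p =
      ((t : ℚ) + 1) / 2 * ((t + e) * (t + e - 1) / DD t e + 1) := by
  have hD := DD_pos h
  have h1 : 3 * t + e + 1 = (t + (t + e)) + (t + 1) := by ring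
  rw [h1, Finset.sum_range_add, sum_low t e (t + e) le_rfl h]
  have h2 : ∑ x ∈ Finset.range (t + 1), GG t e (t + (t + e) + x) =
      ∑ x ∈ Finset.range (t + 1), (1 / 2 : ℚ) :=
    Finset.sum_congr rfl (fun x _ => GG_hi (by omega))
  rw [h2, Finset.sum_const, Finset.card_range, nsmul_eq_mul]
  push_cast
  field_simp
  ring

theorem sum_slope (t e : ℕ) (he : e ≤ 2) (h : 1 ≤ t + e) :
    3 * ∑ p ∈ Finset.range (3 * t + e + 1), GG t e p = slope (3 * t + e + 1) := by
  rw [sum_all t e h]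
  have ht0 : (0 : ℚ) ≤ t := Nat.cast_nonneg t
  unfold slope DD
  interval_cases e
  · have h1 : (2 * (3 * t + 0 + 1) + 1) / 3 = 2 * t + 1 := by omega
    have ht1 : (1 : ℚ) ≤ t := by
      have : 1 ≤ t := by omega
      exact_mod_cast this
    rw [h1]
    push_cast
    have a1 : (t : ℚ) + 1 ≠ 0 := by positivity
    have a2 : (t : ℚ) ≠ 0 := by positivity
    have a3 : 3 * (2 * (t : ℚ) + 1) + 1 - (3 * t + 0 + 1) = 3 * (t + 1) := by ring
    have a4 : 3 * (t : ℚ) + 2 * 0 = 3 * t := by ring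
    rw [a3, a4]
    field_simp
    ring
  · have h1 : (2 * (3 * t + 1 + 1) + 1) / 3 = 2 * t + 1 := by omega
    rw [h1]
    push_cast
    have a1 : (t : ℚ) + 1 ≠ 0 := by positivity
    have a2 : 3 * (t : ℚ) + 2 ≠ 0 := by positivity
    have a3 : 3 * (2 * (t : ℚ) + 1) + 1 - (3 * t + 1 + 1) = 3 * t + 2 := by ring
    have a4 : 3 * (t : ℚ) + 2 * 1 = 3 * t + 2 := by ring
    rw [a3, a4]
    field_simp
    ring
  · have h1 : (2 * (3 * t + 2 + 1) + 1) / 3 = 2 * t + 2 := by omega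
    rw [h1]
    push_cast
    have a1 : (t : ℚ) + 1 ≠ 0 := by positivity
    have a2 : 3 * (t : ℚ) + 4 ≠ 0 := by positivity
    have a3 : 3 * (2 * (t : ℚ) + 2) + 1 - (3 * t + 2 + 1) = 3 * t + 4 := by ring
    have a4 : 3 * (t : ℚ) + 2 * 2 = 3 * t + 4 := by ring
    rw [a3, a4]
    field_simp
    ring

end W

open W in
/-- Piece WEIGHTS -/
theorem weights (k : ℕ) (hk : 1 ≤ k) : ∃ G : ℕ → ℚ, (∀ p, 0 ≤ G p) ∧ Monotone G ∧
    ((∀ p < k, G p + G (k - 1 - p) ≤ 1 / 2) ∨ 3 * G (k - 1) ≤ 1) ∧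
    (∀ l < k, ((k : ℚ) - l) * inc G l + 2 * G (k - 1 - l) ≤ 1) ∧
    3 * (∑ l ∈ Finset.range k, G l) = slope k := by
  rcases Nat.eq_or_lt_of_le hk with h1 | h1
  · subst h1
    refine ⟨fun _ => 1 / 3, fun _ => by norm_num, fun _ _ _ => le_rfl, Or.inr (by norm_num),
      ?_, ?_⟩
    · intro l hl
      have : l = 0 := by omega
      subst this
      simp only [inc]
      norm_num
    · simp only [slope]
      norm_num
  · obtain ⟨t, e, he, hke⟩ : ∃ t e : ℕ, e ≤ 2 ∧ k = 3 * t + e + 1 :=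
      ⟨(k - 1) / 3, (k - 1) % 3, by omega, by omega⟩
    have h : 1 ≤ t + e := by omega
    subst hke
    exact ⟨GG t e, GG_nonneg he h, GG_mono he h, Or.inl (GG_pair he h), GG_hA he h,
      sum_slope t e he h⟩

end TriGrid
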