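import Pool.Agent.Lib_MP_7e32a6_co.SlopeExists
import Pool.Agent.Lib_MP_7e32a6_co.Axis
import Pool.Agent.Lib_MP_7e32a6_co.Charge
import Pool.Agent.Lib_MP_7e32a6_co.MainIneq
import Pool.Agent.Lib_MP_7e32a6_co.Classify
import Pool.Agent.Lib_MP_7e32a6_co.Weights

open Filter Topology

namespace TriGrid

theorem lower_plane (n k : ℕ) (hk : 1 ≤ k) : slope k * n ≤ f n 2 k := by
  obtain ⟨G, hG0, hGm, hB, hA, hS⟩ := weights k hk
  obtain ⟨r, A, L, hL, hinj, hmono, hcov, hN⟩ := classify n k _ (hasCover_f n 2 k (by norm_num))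
  have h := main_ineq A n k hk L hL hinj hcov G hG0 hGm hA
    (fun j => charge_le_one A n k hk G hG0 hGm hB (L j) (hL j) (hinj j) (hmono j))
  rw [hS] at h
  refine h.trans ?_
  rw [Fintype.card_fin]
  exact_mod_cast hN

theorem plane (k : ℕ) (hk : 1 ≤ k) (n : ℕ) :
    (slope k : ℝ) * n ≤ f n 2 k ∧ (f n 2 k : ℝ) ≤ slope k * (n + 2) := by
  refine ⟨by exact_mod_cast lower_plane n k hk, ?_⟩
  obtain ⟨C, hC0, hC, hup⟩ := slope_exists 2 k (by norm_num)
  -- `C ≤ slope k` from the explicit covers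
  set m := (2 * k + 1) / 3 with hm
  have hkm : k ≤ (2 + 1) * m := by omega
  have hpos : 0 < (2 + 1) * m + 1 - k := by omega
  have hle : C ≤ (slope k : ℝ) := by
    have hsub : Tendsto (fun s : ℕ => (f (((2 + 1) * m + 1 - k) * (s + 1)) 2 k : ℝ) /
        ((((2 + 1) * m + 1 - k) * (s + 1) : ℕ) : ℝ)) atTop (𝓝 C) := by
      refine hC.comp (tendsto_atTop_mono (fun s => ?_) (tendsto_add_atTop_nat 1))
      exact Nat.le_mul_of_pos_left _ hpos
    refine le_of_tendsto' hsub (fun s => ?_)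
    obtain ⟨N, hN, hcov⟩ := axis_cover 2 k m (s + 1) (by norm_num) hk hkm (by omega)
    have h1 : (f (((2 + 1) * m + 1 - k) * (s + 1)) 2 k : ℝ) ≤ N := by exact_mod_cast f_le hcov
    have h2 : (2 : ℝ) * N = 3 * (s + 1) * (m * (m + 1)) := by
      have := congrArg (Nat.cast : ℕ → ℝ) hN
      push_cast at this
      linarith
    have hD : ((((2 + 1) * m + 1 - k) * (s + 1) : ℕ) : ℝ) = (3 * m + 1 - k) * (s + 1) := by
      rw [Nat.cast_mul, Nat.cast_sub (by omega)]
      push_cast; ring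
    have hDpos : (0 : ℝ) < 3 * m + 1 - k := by
      have : (k : ℝ) ≤ (2 + 1) * m := by exact_mod_cast hkm
      linarith
    have hsl : (slope k : ℝ) = 3 * m * (m + 1) / (2 * (3 * m + 1 - k)) := by
      simp only [slope, ← hm]; push_cast; ring
    rw [hD, div_le_iff₀ (by positivity), hsl]
    have hs0 : (0 : ℝ) < s + 1 := by positivity
    calc (f (((2 + 1) * m + 1 - k) * (s + 1)) 2 k : ℝ) ≤ N := h1
      _ = 3 * m * (m + 1) / (2 * (3 * m + 1 - k)) * ((3 * m + 1 - k) * (s + 1)) := by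
        field_simp
        nlinarith [h2]
  calc (f n 2 k : ℝ) ≤ C * (n + (2 : ℕ)) := hup n
    _ ≤ slope k * (n + 2) := by
      push_cast
      exact mul_le_mul_of_nonneg_right hle (by positivity)

end TriGrid
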