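import Pool.Agent.Lib_MP_7e32a6_co.Defs

namespace TriGrid

/-- `cc A n l`: the least `c` with `A c ≤ l` (or `n` if there is none below `n`) -/
noncomputable def cc (A : ℕ → ℕ) (n l : ℕ) : ℕ := sInf {c | A c ≤ l ∨ n ≤ c}

/-- increments of `G` -/
noncomputable def inc (G : ℕ → ℚ) (l : ℕ) : ℚ := G l - (if l = 0 then 0 else G (l - 1))

/-- the points of the triangle in barycentric coordinates -/
def tri (n : ℕ) : Finset (Fin 3 → ℕ) :=
  (Fintype.piFinset fun _ => Finset.range n).filter fun x => x 0 + x 1 + x 2 + 1 = n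

/-- deficiency of the point `x` -/
def defi (A : Fin 3 → ℕ → ℕ) (k : ℕ) (x : Fin 3 → ℕ) : ℕ := k - ∑ i, A i (x i)

/-- what is needed at the point `x` on the slice `(i,l)` -/
def need (A : Fin 3 → ℕ → ℕ) (k : ℕ) (i : Fin 3) (l : ℕ) (x : Fin 3 → ℕ) : ℕ :=
  k - l - ∑ j ∈ Finset.univ.erase i, A j (x j)

/-- the charge of a (non-axis) line `L`, given as a finite set of points of the triangle -/
noncomputable def charge (A : Fin 3 → ℕ → ℕ) (n k : ℕ) (G : ℕ → ℚ) (L : Finset (Fin 3 → ℕ)) : ℚ :=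
  ∑ i : Fin 3, ∑ l ∈ Finset.range k, inc G l *
    ∑ x ∈ L.filter (fun x => x i = cc (A i) n l), (need A k i l x : ℚ) / (defi A k x : ℚ)

/-- the slope: with `m = ⌊(2k+1)/3⌋`, it is `3m(m+1) / (2(3m+1-k))` -/
noncomputable def slope (k : ℕ) : ℚ :=
  3 * (((2 * k + 1) / 3 : ℕ) : ℚ) * ((((2 * k + 1) / 3 : ℕ) : ℚ) + 1) /
    (2 * (3 * (((2 * k + 1) / 3 : ℕ) : ℚ) + 1 - k))

end TriGrid
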