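import Pool.Agent.Lib_MP_7e32a6_co.Defs

namespace TriGrid

/-- a real hyperplane contains the integer points of a primitive rational one -/
theorem exists_primitive (d : ℕ) (a : Fin d → ℝ) (ha : a ≠ 0) :
    ∃ c u : Fin d → ℤ, ∑ i, u i * c i = 1 ∧
      ∀ x : Fin d → ℤ, ∑ i, a i * (x i : ℝ) = 0 → ∑ i, c i * x i = 0 := by
  classical
  obtain ⟨i0, hi0⟩ : ∃ i, a i ≠ 0 := by
    by_contra h
    push Not at h
    exact ha (funext h)
  obtain ⟨psi, hpsi⟩ : ∃ psi : Module.Dual ℚ ℝ, psi (a i0) ≠ 0 := by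
    by_contra h
    push Not at h
    exact hi0 ((Module.forall_dual_apply_eq_zero_iff ℚ (a i0)).1 h)
  -- rational vector
  let c' : Fin d → ℚ := fun i => psi (a i)
  -- common denominator
  let D : ℕ := ∏ i, (c' i).den
  have hD : D ≠ 0 := Finset.prod_ne_zero_iff.2 fun i _ => (c' i).den_nz
  have hDi : ∀ i, (c' i).den ∣ D := fun i => Finset.dvd_prod_of_mem _ (Finset.mem_univ i)
  choose q hq using hDi
  let c2 : Fin d → ℤ := fun i => (c' i).num * q i
  have hc2 : ∀ i, (c2 i : ℚ) = D * c' i := by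
    intro i
    have h1 : (D : ℚ) = (c' i).den * q i := by exact_mod_cast hq i
    have h2 : ((c' i).num : ℚ) = c' i * (c' i).den := (Rat.mul_den_eq_num (c' i)).symm
    change (((c' i).num * q i : ℤ) : ℚ) = _
    rw [h1]
    push_cast
    rw [h2]; ring
  have hc2i0 : c2 i0 ≠ 0 := by
    intro h
    have h1 := hc2 i0
    rw [h] at h1
    have h2 : (D : ℚ) * c' i0 = 0 := by rw [← h1]; simp
    rcases mul_eq_zero.1 h2 with h3 | h3
    · exact hD (by exact_mod_cast h3)
    · exact hpsi h3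
  have hker : ∀ x : Fin d → ℤ, ∑ i, a i * (x i : ℝ) = 0 → ∑ i, c2 i * x i = 0 := by
    intro x hx
    have h1 : ∑ i, c' i * (x i : ℚ) = 0 := by
      have h2 := congrArg psi hx
      rw [map_sum, map_zero] at h2
      rw [← h2]
      refine Finset.sum_congr rfl fun i _ => ?_
      have h3 : a i * (x i : ℝ) = (x i : ℚ) • a i := by
        rw [Rat.smul_def]; push_cast; ring
      rw [h3, map_smul, smul_eq_mul]
      ring
    have h2 : ((∑ i, c2 i * x i : ℤ) : ℚ) = D * ∑ i, c' i * (x i : ℚ) := by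
      push_cast
      rw [Finset.mul_sum]
      refine Finset.sum_congr rfl fun i _ => ?_
      rw [hc2 i]; ring
    rw [h1, mul_zero] at h2
    exact_mod_cast h2
  -- divide by the gcd
  let I : Ideal ℤ := Ideal.span (Set.range c2)
  obtain ⟨g, hg⟩ : ∃ g : ℤ, I = Ideal.span {g} :=
    ⟨Submodule.IsPrincipal.generator I, (Ideal.span_singleton_generator I).symm⟩
  have hmem : ∀ i, ∃ c : ℤ, c2 i = g * c := by
    intro i
    have : c2 i ∈ I := Ideal.subset_span ⟨i, rfl⟩
    rw [hg, Ideal.mem_span_singleton] at this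
    exact this
  choose c hc using hmem
  have hgmem : g ∈ I := by rw [hg]; exact Ideal.mem_span_singleton_self g
  obtain ⟨u, hu⟩ := (Ideal.mem_span_range_iff_exists_fun).1 hgmem
  have hg0 : g ≠ 0 := by
    intro h
    apply hc2i0
    rw [hc i0, h, zero_mul]
  refine ⟨c, u, ?_, ?_⟩
  · have h1 : g * ∑ i, u i * c i = g * 1 := by
      rw [Finset.mul_sum, mul_one]
      conv_rhs => rw [← hu]
      refine Finset.sum_congr rfl fun i _ => ?_
      rw [hc i]; ring
    exact mul_left_cancel₀ hg0 h1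
  · intro x hx
    have h1 := hker x hx
    have h2 : g * ∑ i, c i * x i = g * 0 := by
      rw [Finset.mul_sum, mul_zero]
      rw [← h1]
      refine Finset.sum_congr rfl fun i _ => ?_
      rw [hc i]; ring
    exact mul_left_cancel₀ hg0 h2

theorem residue_count (d l : ℕ) (hd : 1 ≤ d) (hl : 1 ≤ l) (a : Fin d → ℝ) (ha : a ≠ 0) (b : ℝ) :
    {r : Fin d → Fin l | ∃ y : Fin d → ℕ, ∑ i, a i * (((r i : ℕ) : ℝ) + l * (y i : ℝ)) = b}.ncard
      ≤ l ^ (d - 1) := by
  classical
  have : NeZero l := ⟨by omega⟩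
  obtain ⟨c, u, huc, hker⟩ := exists_primitive d a ha
  set S := {r : Fin d → Fin l |
    ∃ y : Fin d → ℕ, ∑ i, a i * (((r i : ℕ) : ℝ) + l * (y i : ℝ)) = b} with hS
  rcases S.eq_empty_or_nonempty with hemp | ⟨r0, y0, hr0⟩
  · rw [hemp]; simp
  -- the homomorphism
  let phi : (Fin d → ZMod l) →+ ZMod l :=
    { toFun := fun r => ∑ i, (c i : ZMod l) * r i
      map_zero' := by simp
      map_add' := fun r s => by
        simp only [Pi.add_apply, mul_add, Finset.sum_add_distrib] }
  have hsurj : Function.Surjective phi := by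
    intro t
    refine ⟨fun i => t * (u i : ZMod l), ?_⟩
    change ∑ i, (c i : ZMod l) * (t * (u i : ZMod l)) = t
    have h1 : ((∑ i, u i * c i : ℤ) : ZMod l) = 1 := by rw [huc]; simp
    push_cast at h1
    calc ∑ i, (c i : ZMod l) * (t * (u i : ZMod l)) = t * ∑ i, (u i : ZMod l) * (c i : ZMod l) := by
          rw [Finset.mul_sum]
          exact Finset.sum_congr rfl fun i _ => by ring
      _ = t := by rw [h1, mul_one]
  let cast : (Fin d → Fin l) → (Fin d → ZMod l) := fun r i => ((r i : ℕ) : ZMod l)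
  have hcast : Function.Injective cast := by
    intro r s h
    funext i
    have h1 := congrFun h i
    have h2 : ((r i : ℕ) : ZMod l) = ((s i : ℕ) : ZMod l) := h1
    rw [ZMod.natCast_eq_natCast_iff'] at h2
    rw [Nat.mod_eq_of_lt (r i).2, Nat.mod_eq_of_lt (s i).2] at h2
    exact Fin.ext h2
  let e : ZMod l := phi (cast r0)
  have hfib : ∀ r ∈ S, phi (cast r) = e := by
    rintro r ⟨y, hy⟩
    have h1 : ∑ i, a i * (((((r i : ℕ) : ℤ) + l * (y i : ℤ)) -
        (((r0 i : ℕ) : ℤ) + l * (y0 i : ℤ)) : ℤ) : ℝ) = 0 := by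
      have h2 : ∑ i, a i * (((((r i : ℕ) : ℤ) + l * (y i : ℤ)) -
        (((r0 i : ℕ) : ℤ) + l * (y0 i : ℤ)) : ℤ) : ℝ) =
          ∑ i, a i * (((r i : ℕ) : ℝ) + l * (y i : ℝ)) -
          ∑ i, a i * (((r0 i : ℕ) : ℝ) + l * (y0 i : ℝ)) := by
        rw [← Finset.sum_sub_distrib]
        refine Finset.sum_congr rfl fun i _ => ?_
        push_cast; ring
      rw [h2, hy, hr0, sub_self]
    have h3 := hker _ h1
    have h4 : ((∑ i, c i * ((((r i : ℕ) : ℤ) + l * (y i : ℤ)) -
        (((r0 i : ℕ) : ℤ) + l * (y0 i : ℤ))) : ℤ) : ZMod l) = 0 := by rw [h3]; simp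
    have h5 : ((∑ i, c i * ((((r i : ℕ) : ℤ) + l * (y i : ℤ)) -
        (((r0 i : ℕ) : ℤ) + l * (y0 i : ℤ))) : ℤ) : ZMod l) = phi (cast r) - phi (cast r0) := by
      change _ = ∑ i, (c i : ZMod l) * ((r i : ℕ) : ZMod l) -
        ∑ i, (c i : ZMod l) * ((r0 i : ℕ) : ZMod l)
      rw [← Finset.sum_sub_distrib]
      push_cast
      refine Finset.sum_congr rfl fun i _ => ?_
      simp; ring
    rw [h5] at h4
    exact sub_eq_zero.1 h4
  have hcard : (Finset.univ.filter fun v => phi v = e).card = l ^ (d - 1) := by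
    have hall : ∀ t : ZMod l, (Finset.univ.filter fun v => phi v = t).card =
        (Finset.univ.filter fun v => phi v = e).card := fun t =>
      AddMonoidHom.card_fiber_eq_of_mem_range phi (hsurj t) (hsurj e)
    have h1 : (Finset.univ : Finset (Fin d → ZMod l)).card =
        ∑ t : ZMod l, (Finset.univ.filter fun v => phi v = t).card :=
      Finset.card_eq_sum_card_fiberwise fun _ _ => Finset.mem_univ _
    rw [Finset.sum_congr rfl fun t _ => hall t, Finset.sum_const, Finset.card_univ,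
      Finset.card_univ, ZMod.card, Fintype.card_fun, ZMod.card, Fintype.card_fin,
      smul_eq_mul] at h1
    have h7 : l ^ d = l * l ^ (d - 1) := by
      rw [← pow_succ', Nat.sub_add_cancel hd]
    rw [h7] at h1
    exact (Nat.eq_of_mul_eq_mul_left (by omega) h1).symm
  rw [← hcard, ← Set.ncard_coe_finset]
  refine Set.ncard_le_ncard_of_injOn cast ?_ hcast.injOn (Set.toFinite _)
  intro r hr
  simp only [Finset.coe_filter, Finset.mem_univ, true_and]
  exact hfib r hr

end TriGrid
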