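import Pool.Agent.Lib_MP_7e32a6_co.Basic
import Pool.Agent.Lib_MP_7e32a6_co.Residue

namespace TriGrid

/-- sampling along the residue classes mod `l` -/
theorem sampling_aux (n d k l N : ℕ) (hd : 1 ≤ d) (hl : 1 ≤ l)
    (hN : HasCover (l * (n + d)) d k N) : l * f n d k ≤ N := by
  classical
  obtain ⟨H, hH, hc⟩ := hN
  -- classes hit by `H j`
  let hit : (Fin d → Fin l) → Fin N → Prop := fun r j =>
    ∃ y : Fin d → ℕ, (fun i => (((r i : ℕ) : ℝ) + l * (y i : ℝ))) ∈ H j
  -- each class gives a cover
  have h1 : ∀ r : Fin d → Fin l, f n d k ≤ (Finset.univ.filter fun j => hit r j).card := by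
    intro r
    refine f_le (hasCover_of_finset _
      (fun j => {x : Fin d → ℝ | (fun i => (((r i : ℕ) : ℝ) + l * x i)) ∈ H j}) ?_ ?_)
    · intro j _
      obtain ⟨a, b, ha, hab⟩ := hH j
      refine ⟨fun i => a i * l, b - ∑ i, a i * ((r i : ℕ) : ℝ), ?_, ?_⟩
      · intro h
        apply ha
        funext i
        have h2 := congrFun h i
        have hl' : (l : ℝ) ≠ 0 := by positivity
        simpa [hl'] using h2
      · ext x
        have hx : (x ∈ {x : Fin d → ℝ | (fun i => (((r i : ℕ) : ℝ) + l * x i)) ∈ H j}) ↔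
            ∑ i, a i * (((r i : ℕ) : ℝ) + l * x i) = b := by
          rw [hab]; rfl
        rw [hx]
        change _ ↔ ∑ i, a i * l * x i = b - ∑ i, a i * ((r i : ℕ) : ℝ)
        have : ∑ i, a i * (((r i : ℕ) : ℝ) + l * x i) =
            ∑ i, a i * ((r i : ℕ) : ℝ) + ∑ i, a i * l * x i := by
          rw [← Finset.sum_add_distrib]
          exact Finset.sum_congr rfl fun i _ => by ring
        rw [this]
        constructor <;> intro h <;> linarith
    · rintro x ⟨y, hy, hs⟩
      have hmem : (fun i => (((r i : ℕ) : ℝ) + l * x i)) ∈ grid d (l * (n + d)) := by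
        refine ⟨fun i => (r i : ℕ) + l * y i, fun i => ?_, ?_⟩
        · push_cast; rw [hy i]
        · have hr : ∑ i, ((r i : ℕ)) ≤ ∑ _i : Fin d, (l - 1) :=
            Finset.sum_le_sum fun i _ => by have := (r i).2; omega
          rw [Finset.sum_add_distrib, ← Finset.mul_sum]
          have hr2 : ∑ _i : Fin d, (l - 1) = d * (l - 1) := by simp
          rw [hr2] at hr
          have h3 : l * (∑ i, y i) + l ≤ l * n := by
            calc l * (∑ i, y i) + l = l * (∑ i, y i + 1) := by ring
              _ ≤ l * n := Nat.mul_le_mul_left _ hs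
          have h4 : d * (l - 1) ≤ l * d := by
            rw [mul_comm l d]; exact Nat.mul_le_mul_left _ (Nat.sub_le _ _)
          calc ∑ i, ((r i : ℕ)) + l * ∑ i, y i + 1 ≤ d * (l - 1) + (l * ∑ i, y i + l) := by
                omega
            _ ≤ l * d + l * n := by omega
            _ = l * (n + d) := by ring
      refine (hc _ hmem).trans (Set.ncard_le_ncard ?_ (Set.toFinite _))
      intro j hj
      refine ⟨?_, hj⟩
      rw [Finset.mem_filter]
      refine ⟨Finset.mem_univ _, y, ?_⟩
      have : (fun i => (((r i : ℕ) : ℝ) + l * (y i : ℝ))) =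
          (fun i => (((r i : ℕ) : ℝ) + l * x i)) := by
        funext i; rw [hy i]
      rw [this]; exact hj
  -- each hyperplane hits few classes
  have h2 : ∀ j, (Finset.univ.filter fun r => hit r j).card ≤ l ^ (d - 1) := by
    intro j
    obtain ⟨a, b, ha, hab⟩ := hH j
    have h3 := residue_count d l hd hl a ha b
    have h4 : {r : Fin d → Fin l | ∃ y : Fin d → ℕ,
        ∑ i, a i * (((r i : ℕ) : ℝ) + l * (y i : ℝ)) = b} =
        ((Finset.univ.filter fun r => hit r j : Finset _) : Set (Fin d → Fin l)) := by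
      ext r
      simp only [Finset.coe_filter, Finset.mem_univ, true_and]
      change (∃ y : Fin d → ℕ, ∑ i, a i * (((r i : ℕ) : ℝ) + l * (y i : ℝ)) = b) ↔ hit r j
      simp only [hit, hab]
      rfl
    rw [h4, Set.ncard_coe_finset] at h3
    exact h3
  have h5 : ∑ r : Fin d → Fin l, (Finset.univ.filter fun j => hit r j).card =
      ∑ j : Fin N, (Finset.univ.filter fun r => hit r j).card := by
    simp only [Finset.card_filter]
    exact Finset.sum_comm
  have h6 : l ^ d * f n d k ≤ N * l ^ (d - 1) := by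
    calc l ^ d * f n d k = ∑ _r : Fin d → Fin l, f n d k := by
          rw [Finset.sum_const]; simp
      _ ≤ ∑ r : Fin d → Fin l, (Finset.univ.filter fun j => hit r j).card :=
          Finset.sum_le_sum fun r _ => h1 r
      _ = ∑ j : Fin N, (Finset.univ.filter fun r => hit r j).card := h5
      _ ≤ ∑ _j : Fin N, l ^ (d - 1) := Finset.sum_le_sum fun j _ => h2 j
      _ = N * l ^ (d - 1) := by simp
  have h7 : l ^ d = l ^ (d - 1) * l := by
    rw [← pow_succ, Nat.sub_add_cancel hd]
  rw [h7] at h6
  have h8 : l ^ (d - 1) * (l * f n d k) ≤ l ^ (d - 1) * N := by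
    calc l ^ (d - 1) * (l * f n d k) = l ^ (d - 1) * l * f n d k := by ring
      _ ≤ N * l ^ (d - 1) := h6
      _ = l ^ (d - 1) * N := by ring
  exact Nat.le_of_mul_le_mul_left h8 (by positivity)

theorem sampling (n d k l : ℕ) (hd : 1 ≤ d) (hl : 1 ≤ l) :
    l * f n d k ≤ f (l * (n + d)) d k :=
  sampling_aux n d k l _ hd hl (hasCover_f _ d k hd)

end TriGrid
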