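import Pool.Agent.Lib_MP_7e32a6_co.Sampling
import Pool.Agent.Lib_MP_7e32a6_co.Limit

open Filter Topology

namespace TriGrid

theorem slope_exists (d k : ℕ) (hd : 1 ≤ d) :
    ∃ C : ℝ, 0 ≤ C ∧ Tendsto (fun n : ℕ => (f n d k : ℝ) / n) atTop (𝓝 C) ∧
      ∀ n : ℕ, (f n d k : ℝ) ≤ C * (n + d) :=
  limit_of_sampling (fun n => f n d k) d k (fun _ _ h => f_mono hd h)
    (fun n => f_le (hasCover_trivial n d k hd)) (fun n l hl => sampling n d k l hd hl)

end TriGrid
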